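import Pool.Agent.Run7.h729.Lip.Defs

namespace Run7.h729

theorem across_across (t : Tri) (i : Fin 3) : across (across t i) i = t := by
  rcases t with ⟨⟨x, y⟩, b⟩
  cases b <;> fin_cases i <;> simp [across]

theorem vert_across (t : Tri) (i : Fin 3) : vert (across t i) i = vert t (i + 1) := by
  rcases t with ⟨⟨x, y⟩, b⟩
  cases b <;> fin_cases i <;> simp [across, vert]

theorem vert_across' (t : Tri) (i : Fin 3) : vert (across t i) (i + 1) = vert t i := by
  rcases t with ⟨⟨x, y⟩, b⟩
  cases b <;> fin_cases i <;> simp [across, vert]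

theorem across_ne (t : Tri) (i : Fin 3) : across t i ≠ t := by
  rcases t with ⟨⟨x, y⟩, b⟩
  cases b <;> fin_cases i <;> simp [across]

theorem across_inj (t : Tri) (i j : Fin 3) (h : across t i = across t j) : i = j := by
  rcases t with ⟨⟨x, y⟩, b⟩
  cases b <;> fin_cases i <;> fin_cases j <;> simp_all [across] <;> omega

theorem adj_vert (t : Tri) (i : Fin 3) : Adj (vert t i) (vert t (i + 1)) := by
  rcases t with ⟨⟨x, y⟩, b⟩
  cases b <;> fin_cases i <;> simp [vert, Adj]

theorem Adj.symm {p q : V} (h : Adj p q) : Adj q p := by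
  unfold Adj at *
  omega

theorem exists_edge {p q : V} (h : Adj p q) : ∃ t i, vert t i = p ∧ vert t (i + 1) = q := by
  obtain ⟨x, y⟩ := p
  obtain ⟨x', y'⟩ := q
  rcases h with ⟨h1, h2⟩ | ⟨h1, h2⟩ | ⟨h1, h2⟩ | ⟨h1, h2⟩ | ⟨h1, h2⟩ | ⟨h1, h2⟩ <;>
    simp only at h1 h2 <;> rw [h1, h2] <;> clear h1 h2
  · exact ⟨((x, y), false), 0, by simp [vert], by simp [vert]⟩
  · exact ⟨((x - 1, y - 1), true), 0, by simp [vert], by simp [vert]⟩
  · exact ⟨((x - 1, y), true), 2, by simp [vert], by simp [vert]⟩
  · exact ⟨((x, y - 1), false), 2, by simp [vert], by simp [vert]⟩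
  · exact ⟨((x, y - 1), true), 1, by simp [vert], by simp [vert]⟩
  · exact ⟨((x - 1, y), false), 1, by simp [vert], by simp [vert]⟩

/-- the six triangles around `v`, counterclockwise -/
def around : V → Fin 6 → Tri
  | (x, y) => ![((x, y), false), ((x - 1, y), true), ((x - 1, y), false),
      ((x - 1, y - 1), true), ((x, y - 1), false), ((x, y - 1), true)]

/-- the index of `v` in `around v k` -/
def idx : Fin 6 → Fin 3 := ![0, 2, 1, 0, 2, 1]

/-- the neighbours of `v`, counterclockwise -/
def nbr : V → Fin 6 → V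
  | (x, y) => ![(x + 1, y), (x, y + 1), (x - 1, y + 1), (x - 1, y), (x, y - 1), (x + 1, y - 1)]

theorem vert_around (v : V) (k : Fin 6) : vert (around v k) (idx k) = v := by
  rcases v with ⟨x, y⟩
  fin_cases k <;> simp [around, idx, vert]

theorem vert_around1 (v : V) (k : Fin 6) : vert (around v k) (idx k + 1) = nbr v k := by
  rcases v with ⟨x, y⟩
  fin_cases k <;> simp [around, idx, vert, nbr]

theorem vert_around2 (v : V) (k : Fin 6) : vert (around v k) (idx k + 2) = nbr v (k + 1) := by
  rcases v with ⟨x, y⟩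
  fin_cases k <;> simp [around, idx, vert, nbr]

theorem across_around (v : V) (k : Fin 6) : across (around v (k + 1)) (idx (k + 1)) = around v k := by
  rcases v with ⟨x, y⟩
  fin_cases k <;> simp [around, idx, across]

theorem across_around2 (v : V) (k : Fin 6) : across (around v k) (idx k + 2) = around v (k + 1) := by
  rcases v with ⟨x, y⟩
  fin_cases k <;> simp [around, idx, across]

theorem around_inj (v : V) : Function.Injective (around v) := by
  rcases v with ⟨x, y⟩
  intro k l h
  fin_cases k <;> fin_cases l <;> simp_all [around] <;> omega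

theorem exists_around {v : V} {t : Tri} {i : Fin 3} (h : vert t i = v) :
    ∃ k, t = around v k ∧ i = idx k := by
  rcases t with ⟨⟨x, y⟩, b⟩
  subst h
  cases b <;> fin_cases i
  · exact ⟨0, by simp [around, vert], rfl⟩
  · exact ⟨2, by simp [around, vert], rfl⟩
  · exact ⟨4, by simp [around, vert], rfl⟩
  · exact ⟨3, by simp [around, vert], rfl⟩
  · exact ⟨5, by simp [around, vert], rfl⟩
  · exact ⟨1, by simp [around, vert], rfl⟩

theorem nbr_ne (v : V) (k : Fin 6) : nbr v k ≠ v := by
  rcases v with ⟨x, y⟩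
  fin_cases k <;> simp [nbr]

theorem adj_nbr (v : V) (k : Fin 6) : Adj v (nbr v k) := by
  rcases v with ⟨x, y⟩
  fin_cases k <;> simp [nbr, Adj]

theorem vert_inj (t : Tri) : Function.Injective (vert t) := by
  rcases t with ⟨⟨x, y⟩, b⟩
  intro k l h
  cases b <;> fin_cases k <;> fin_cases l <;> simp_all [vert]

/-- the triangles that have a vertex in `Λ` -/
def tris (Λ : Finset V) : Finset Tri := Λ.biUnion (fun v => Finset.univ.image (around v))

theorem mem_tris {Λ : Finset V} {t : Tri} : t ∈ tris Λ ↔ ∃ i, vert t i ∈ Λ := by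
  simp only [tris, Finset.mem_biUnion, Finset.mem_image, Finset.mem_univ, true_and]
  constructor
  · rintro ⟨v, hv, k, rfl⟩
    exact ⟨idx k, by rw [vert_around]; exact hv⟩
  · rintro ⟨i, hi⟩
    obtain ⟨k, hk, _⟩ := exists_around (rfl : vert t i = vert t i)
    exact ⟨vert t i, hi, k, hk.symm⟩

/-- closed discrete one-forms on the square lattice are exact -/
theorem potential (f g : V → ℤ)
    (h : ∀ x y : ℤ, f (x, y) + g (x + 1, y) = g (x, y) + f (x, y + 1)) :
    ∃ n : V → ℤ, ∀ x y : ℤ, n (x + 1, y) = n (x, y) + f (x, y) ∧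
      n (x, y + 1) = n (x, y) + g (x, y) := by
  have key : ∀ a : ℤ → ℤ, ∃ F : ℤ → ℤ, F 0 = 0 ∧ ∀ x, F (x + 1) = F x + a x := by
    intro a
    refine ⟨fun x => if 0 ≤ x then ∑ i ∈ Finset.range x.toNat, a i
      else - ∑ i ∈ Finset.range (-x).toNat, a (-(i : ℤ) - 1), by simp, ?_⟩
    intro x
    rcases lt_or_ge x 0 with hx | hx
    · rcases eq_or_lt_of_le (show x + 1 ≤ 0 by omega) with h0 | h0
      · have : x = -1 := by omega
        subst this
        simp
      · have h1 : ¬ (0 ≤ x) := by omega
        have h2 : ¬ (0 ≤ x + 1) := by omega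
        simp only [h1, h2, if_false]
        have h3 : (-x).toNat = (-(x + 1)).toNat + 1 := by omega
        rw [h3, Finset.sum_range_succ]
        have h4 : (-(((-(x + 1)).toNat : ℕ) : ℤ) - 1) = x := by omega
        rw [h4]
        ring
    · have h1 : (0 ≤ x + 1) := by omega
      simp only [hx, h1, if_true]
      have h3 : (x + 1).toNat = x.toNat + 1 := by omega
      rw [h3, Finset.sum_range_succ]
      have h4 : ((x.toNat : ℕ) : ℤ) = x := by omega
      rw [h4]
  choose! A hA0 hA using key
  refine ⟨fun p => A (fun x => f (x, 0)) p.1 + A (fun y => g (p.1, y)) p.2, ?_⟩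
  have hy : ∀ x y : ℤ, A (fun y => g (x, y)) (y + 1) = A (fun y => g (x, y)) y + g (x, y) :=
    fun x y => hA _ y
  have hx : ∀ x : ℤ, A (fun x => f (x, 0)) (x + 1) = A (fun x => f (x, 0)) x + f (x, 0) :=
    fun x => hA _ x
  have hxy : ∀ x y : ℤ, A (fun y => g (x + 1, y)) y - A (fun y => g (x, y)) y
      = f (x, y) - f (x, 0) := by
    intro x y
    induction y using Int.induction_on with
    | zero => simp [hA0]
    | succ i ih =>
      rw [hy, hy]
      have := h x i
      linarith
    | pred i ih =>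
      have h1 := hy x (-(i : ℤ) - 1)
      have h2 := hy (x + 1) (-(i : ℤ) - 1)
      have h3 := h x (-(i : ℤ) - 1)
      rw [show (-(i : ℤ) - 1) + 1 = -(i : ℤ) by ring] at h1 h2 h3
      linarith
  intro x y
  constructor
  · simp only
    rw [hx]
    linarith [hxy x y]
  · simp only
    rw [hy]
    ring

end Run7.h729
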