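import Pool.Agent.Run7.h729.Lip.Basic

namespace Run7.h729

open Classical

/-- combinatorial Dobrushin domain: `D` triangles, `Λ` free vertices, `N` integer heights of the
other vertices; on the boundary edges of `D` they change only along the edge `ia` of `ta` and the
edge `ib` of `tb` -/
structure Dob (D : Finset Tri) (Λ : Finset V) (N : V → ℤ) (ta tb : Tri) (ia ib : Fin 3) :
    Prop where
  mem : ∀ t i, vert t i ∈ Λ → t ∈ D
  ta_mem : ta ∈ D
  tb_mem : tb ∈ D
  aout : across ta ia ∉ D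
  bout : across tb ib ∉ D
  ne : ta ≠ tb
  da : N (vert ta (ia + 1)) - N (vert ta ia) = -1
  db : N (vert tb (ib + 1)) - N (vert tb ib) = 1
  chord : ∀ t ∈ D, ∀ i, vert t i ∉ Λ → vert t (i + 1) ∉ Λ →
    N (vert t (i + 1)) - N (vert t i) = 0 ∨ N (vert t (i + 1)) - N (vert t i) = 1 ∨
      N (vert t (i + 1)) - N (vert t i) = -1
  bdry : ∀ t ∈ D, ∀ i, across t i ∉ D →
    N (vert t (i + 1)) = N (vert t i) ∨ (t = ta ∧ i = ia) ∨ (t = tb ∧ i = ib)
  conn : ∀ u w, u ∉ Λ → w ∉ Λ →
    Relation.ReflTransGen (fun p q => Adj p q ∧ p ∉ Λ ∧ q ∉ Λ) u w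

variable {L : Type*} [LinearOrder L]

structure Valid (r : V → L) (Λ : Finset V) (N : V → ℤ) (n : V → ℤ) : Prop where
  off : ∀ v, v ∉ Λ → n v = N v
  edge : ∀ t i, (vert t i ∈ Λ ∨ vert t (i + 1) ∈ Λ) → r (vert t (i + 1)) < r (vert t i) →
    n (vert t (i + 1)) = n (vert t i) ∨ n (vert t (i + 1)) = n (vert t i) + 1

def diff (n : V → ℤ) (t : Tri) (i : Fin 3) : ℤ := n (vert t (i + 1)) - n (vert t i)

theorem diff_sum (n : V → ℤ) (t : Tri) : diff n t 0 + diff n t 1 + diff n t 2 = 0 := by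
  simp [diff]

theorem diff_across (n : V → ℤ) (t : Tri) (i : Fin 3) : diff n (across t i) i = - diff n t i := by
  simp only [diff, vert_across, vert_across']
  ring

variable {D : Finset Tri}
variable {r : V → L} {Λ : Finset V} {N : V → ℤ} {ta tb : Tri} {ia ib : Fin 3} {n : V → ℤ}

theorem fin3_cases (i : Fin 3) : i = 0 ∨ i = 1 ∨ i = 2 := by fin_cases i <;> simp

theorem Valid.edge' (hv : Valid r Λ N n) (hr : Function.Injective r) {t : Tri} {i : Fin 3}
    (h : vert t i ∈ Λ ∨ vert t (i + 1) ∈ Λ) :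
    diff n t i = 0 ∨ (diff n t i = 1 ∧ r (vert t (i + 1)) < r (vert t i)) ∨
      (diff n t i = -1 ∧ r (vert t i) < r (vert t (i + 1))) := by
  rcases lt_trichotomy (r (vert t (i + 1))) (r (vert t i)) with h1 | h1 | h1
  · rcases hv.edge t i h h1 with h2 | h2
    · left; simp only [diff]; omega
    · right; left; refine ⟨?_, h1⟩; simp only [diff]; omega
  · exfalso
    have := vert_inj t (hr h1)
    revert this
    fin_cases i <;> simp
  · have h3 := hv.edge (across t i) i (by rw [vert_across, vert_across']; exact h.symm)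
      (by rw [vert_across, vert_across']; exact h1)
    rw [vert_across, vert_across'] at h3
    rcases h3 with h2 | h2
    · left; simp only [diff]; omega
    · right; right; refine ⟨?_, h1⟩; simp only [diff]; omega

/-- the index with a given nonzero difference is unique and the opposite value occurs -/
theorem uniq_of {d : Fin 3 → ℤ} (hs : d 0 + d 1 + d 2 = 0)
    (hm : ∀ i, d i = 0 ∨ d i = 1 ∨ d i = -1) {c : ℤ} (hc : c = 1 ∨ c = -1) {i j : Fin 3}
    (hi : d i = c) (hj : d j = c) : i = j := by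
  have h0 := hm 0
  have h1 := hm 1
  have h2 := hm 2
  rcases fin3_cases i with rfl | rfl | rfl <;> rcases fin3_cases j with rfl | rfl | rfl <;>
    first
    | rfl
    | (exfalso; omega)

theorem opp_of {d : Fin 3 → ℤ} (hs : d 0 + d 1 + d 2 = 0) {c : ℤ} {i : Fin 3}
    (hm : ∀ i, d i = 0 ∨ d i = 1 ∨ d i = -1) (hc : c = 1 ∨ c = -1)
    (hi : d i = c) : ∃ j, d j = -c := by
  have h0 := hm 0
  have h1 := hm 1
  have h2 := hm 2
  by_contra hcon
  push Not at hcon
  have g0 := hcon 0
  have g1 := hcon 1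
  have g2 := hcon 2
  rcases hc with hc | hc <;> rcases fin3_cases i with rfl | rfl | rfl <;> omega

noncomputable def nx (ta tb : Tri) (n : V → ℤ) (t : Tri) : Tri :=
  if t = tb then ta else if h : ∃ i, diff n t i = 1 then across t h.choose else t

noncomputable def pv (ta tb : Tri) (n : V → ℤ) (t : Tri) : Tri :=
  if t = ta then tb else if h : ∃ i, diff n t i = -1 then across t h.choose else t

theorem Dob.mem' (hD : Dob D Λ N ta tb ia ib) {t : Tri} {i : Fin 3}
    (h : vert t i ∈ Λ ∨ vert t (i + 1) ∈ Λ) : t ∈ D := by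
  rcases h with h | h
  · exact hD.mem t _ h
  · exact hD.mem t _ h

theorem Dob.across_mem (hD : Dob D Λ N ta tb ia ib) {t : Tri} {i : Fin 3}
    (h : vert t i ∈ Λ ∨ vert t (i + 1) ∈ Λ) : across t i ∈ D := by
  rcases h with h | h
  · exact hD.mem _ (i + 1) (by rw [vert_across']; exact h)
  · exact hD.mem _ i (by rw [vert_across]; exact h)

theorem Dob.off_of_bdry (hD : Dob D Λ N ta tb ia ib) {t : Tri} {i : Fin 3}
    (h : across t i ∉ D) : vert t i ∉ Λ ∧ vert t (i + 1) ∉ Λ :=
  ⟨fun h' => h (hD.across_mem (Or.inl h')), fun h' => h (hD.across_mem (Or.inr h'))⟩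

theorem Dob.a_off (hD : Dob D Λ N ta tb ia ib) : vert ta ia ∉ Λ ∧ vert ta (ia + 1) ∉ Λ :=
  hD.off_of_bdry hD.aout

theorem Dob.b_off (hD : Dob D Λ N ta tb ia ib) : vert tb ib ∉ Λ ∧ vert tb (ib + 1) ∉ Λ :=
  hD.off_of_bdry hD.bout

theorem Valid.diff_off (hv : Valid r Λ N n) {t : Tri} {i : Fin 3}
    (h : ¬ (vert t i ∈ Λ ∨ vert t (i + 1) ∈ Λ)) :
    diff n t i = N (vert t (i + 1)) - N (vert t i) := by
  push Not at h
  simp only [diff, hv.off _ h.1, hv.off _ h.2]

theorem Valid.diff_mem (hv : Valid r Λ N n) (hr : Function.Injective r)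
    (hD : Dob D Λ N ta tb ia ib) {t : Tri} (ht : t ∈ D) (i : Fin 3) :
    diff n t i = 0 ∨ diff n t i = 1 ∨ diff n t i = -1 := by
  by_cases h : vert t i ∈ Λ ∨ vert t (i + 1) ∈ Λ
  · rcases hv.edge' hr h with h1 | h1 | h1
    · exact Or.inl h1
    · exact Or.inr (Or.inl h1.1)
    · exact Or.inr (Or.inr h1.1)
  · rw [hv.diff_off h]
    push Not at h
    exact hD.chord t ht i h.1 h.2

section

variable (hv : Valid r Λ N n) (hr : Function.Injective r) (hD : Dob D Λ N ta tb ia ib)
include hv hr hD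

omit hr in
theorem diff_ta : diff n ta ia = -1 := by
  rw [hv.diff_off (by have := hD.a_off; tauto)]
  exact hD.da

omit hr in
theorem diff_tb : diff n tb ib = 1 := by
  rw [hv.diff_off (by have := hD.b_off; tauto)]
  exact hD.db

theorem uniq {t : Tri} (ht : t ∈ D) {c : ℤ} (hc : c = 1 ∨ c = -1) {i j : Fin 3}
    (hi : diff n t i = c) (hj : diff n t j = c) : i = j :=
  uniq_of (diff_sum n t) (fun i => hv.diff_mem hr hD ht i) hc hi hj

theorem opp {t : Tri} (ht : t ∈ D) {c : ℤ} (hc : c = 1 ∨ c = -1) {i : Fin 3}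
    (hi : diff n t i = c) : ∃ j, diff n t j = -c :=
  opp_of (diff_sum n t) (fun i => hv.diff_mem hr hD ht i) hc hi

omit hr in
/-- an upward step out of a triangle other than `tb` stays in `D` -/
theorem out_mem {t : Tri} (ht : t ∈ D) (htb : t ≠ tb) {i : Fin 3}
    (hi : diff n t i = 1) : across t i ∈ D := by
  by_contra h
  have h1 := hD.off_of_bdry h
  rw [hv.diff_off (by tauto)] at hi
  rcases hD.bdry t ht i h with h2 | ⟨rfl, rfl⟩ | ⟨rfl, rfl⟩
  · omega
  · have := hD.da; omega
  · exact htb rfl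

omit hr in
theorem in_mem {t : Tri} (ht : t ∈ D) (hta : t ≠ ta) {i : Fin 3}
    (hi : diff n t i = -1) : across t i ∈ D := by
  by_contra h
  have h1 := hD.off_of_bdry h
  rw [hv.diff_off (by tauto)] at hi
  rcases hD.bdry t ht i h with h2 | ⟨rfl, rfl⟩ | ⟨rfl, rfl⟩
  · omega
  · exact hta rfl
  · have := hD.db; omega

theorem nx_of {t : Tri} (ht : t ∈ D) (htb : t ≠ tb) {i : Fin 3} (hi : diff n t i = 1) :
    nx ta tb n t = across t i := by
  have h : ∃ i, diff n t i = 1 := ⟨i, hi⟩
  rw [nx, if_neg htb, dif_pos h]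
  congr 1
  exact uniq hv hr hD ht (Or.inl rfl) h.choose_spec hi

omit hv hr hD in
theorem nx_self {t : Tri} (htb : t ≠ tb) (h : ∀ i, diff n t i ≠ 1) :
    nx ta tb n t = t := by
  rw [nx, if_neg htb, dif_neg (by push Not; exact h)]

omit hv hr hD in
theorem nx_tb : nx ta tb n tb = ta := by simp [nx]

theorem pv_of {t : Tri} (ht : t ∈ D) (hta : t ≠ ta) {i : Fin 3} (hi : diff n t i = -1) :
    pv ta tb n t = across t i := by
  have h : ∃ i, diff n t i = -1 := ⟨i, hi⟩
  rw [pv, if_neg hta, dif_pos h]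
  congr 1
  exact uniq hv hr hD ht (Or.inr rfl) h.choose_spec hi

omit hv hr hD in
theorem pv_self {t : Tri} (hta : t ≠ ta) (h : ∀ i, diff n t i ≠ -1) :
    pv ta tb n t = t := by
  rw [pv, if_neg hta, dif_neg (by push Not; exact h)]

omit hv hr hD in
theorem pv_ta : pv ta tb n ta = tb := by simp [pv]

theorem nx_mem {t : Tri} (ht : t ∈ D) : nx ta tb n t ∈ D := by
  by_cases htb : t = tb
  · rw [htb, nx_tb]; exact hD.ta_mem
  by_cases h : ∃ i, diff n t i = 1
  · obtain ⟨i, hi⟩ := h
    rw [nx_of hv hr hD ht htb hi]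
    exact out_mem hv hD ht htb hi
  · push Not at h
    rw [nx_self htb h]; exact ht

theorem pv_mem {t : Tri} (ht : t ∈ D) : pv ta tb n t ∈ D := by
  by_cases hta : t = ta
  · rw [hta, pv_ta]; exact hD.tb_mem
  by_cases h : ∃ i, diff n t i = -1
  · obtain ⟨i, hi⟩ := h
    rw [pv_of hv hr hD ht hta hi]
    exact in_mem hv hD ht hta hi
  · push Not at h
    rw [pv_self hta h]; exact ht

theorem pv_nx {t : Tri} (ht : t ∈ D) : pv ta tb n (nx ta tb n t) = t := by
  by_cases htb : t = tb
  · rw [htb, nx_tb, pv_ta]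
  by_cases h : ∃ i, diff n t i = 1
  · obtain ⟨i, hi⟩ := h
    have hm := nx_mem hv hr hD ht
    rw [nx_of hv hr hD ht htb hi] at hm ⊢
    have hd : diff n (across t i) i = -1 := by rw [diff_across, hi]
    have hne : across t i ≠ ta := by
      intro he
      rw [he] at hd hm
      have := uniq hv hr hD hm (Or.inr rfl) hd (diff_ta hv hD)
      subst this
      have a0 := hD.aout
      rw [← he, across_across] at a0
      exact a0 ht
    rw [pv_of hv hr hD hm hne hd, across_across]
  · push Not at h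
    rw [nx_self htb h]
    have hne : t ≠ ta := by
      intro he
      subst he
      obtain ⟨j, hj⟩ := opp hv hr hD ht (Or.inr rfl) (diff_ta hv hD)
      exact h j (by simpa using hj)
    apply pv_self hne
    intro i hi
    obtain ⟨j, hj⟩ := opp hv hr hD ht (Or.inr rfl) hi
    exact h j (by simpa using hj)

theorem nx_pv {t : Tri} (ht : t ∈ D) : nx ta tb n (pv ta tb n t) = t := by
  by_cases hta : t = ta
  · rw [hta, pv_ta, nx_tb]
  by_cases h : ∃ i, diff n t i = -1
  · obtain ⟨i, hi⟩ := h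
    have hm := pv_mem hv hr hD ht
    rw [pv_of hv hr hD ht hta hi] at hm ⊢
    have hd : diff n (across t i) i = 1 := by rw [diff_across, hi]; rfl
    have hne : across t i ≠ tb := by
      intro he
      rw [he] at hd hm
      have := uniq hv hr hD hm (Or.inl rfl) hd (diff_tb hv hD)
      subst this
      have a0 := hD.bout
      rw [← he, across_across] at a0
      exact a0 ht
    rw [nx_of hv hr hD hm hne hd, across_across]
  · push Not at h
    rw [pv_self hta h]
    have hne : t ≠ tb := by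
      intro he
      subst he
      obtain ⟨j, hj⟩ := opp hv hr hD ht (Or.inl rfl) (diff_tb hv hD)
      exact h j (by simpa using hj)
    apply nx_self hne
    intro i hi
    obtain ⟨j, hj⟩ := opp hv hr hD ht (Or.inl rfl) hi
    exact h j (by simpa using hj)

/-- the permutation of the triangles along the level lines, closed up by `tb ↦ ta` -/
noncomputable def sig : Equiv.Perm {t // t ∈ D} where
  toFun t := ⟨nx ta tb n t.1, nx_mem hv hr hD t.2⟩
  invFun t := ⟨pv ta tb n t.1, pv_mem hv hr hD t.2⟩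
  left_inv t := Subtype.ext (pv_nx hv hr hD t.2)
  right_inv t := Subtype.ext (nx_pv hv hr hD t.2)

end

/-- a level line must leave the triangle `t` across a fixed edge -/
def Forced (Λ : Finset V) (N : V → ℤ) (t : Tri) (i : Fin 3) : Prop :=
  ¬ (vert t i ∈ Λ ∨ vert t (i + 1) ∈ Λ) ∧ N (vert t (i + 1)) - N (vert t i) = 1

/-- the allowed moves -/
def Allowed (r : V → L) (Λ : Finset V) (N : V → ℤ) (ta tb : Tri) (t t' : Tri) : Prop :=
  (t = tb ∧ t' = ta) ∨ (t ≠ tb ∧ ((∃ i, Forced Λ N t i ∧ t' = across t i) ∨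
    ((∀ i, ¬ Forced Λ N t i) ∧ (t' = t ∨ ∃ i, t' = across t i ∧
    (vert t i ∈ Λ ∨ vert t (i + 1) ∈ Λ) ∧ r (vert t (i + 1)) < r (vert t i)))))

theorem sig_allowed (hv : Valid r Λ N n) (hr : Function.Injective r) (hD : Dob D Λ N ta tb ia ib)
    (t : {t // t ∈ D}) : Allowed r Λ N ta tb t.1 (sig hv hr hD t).1 := by
  change Allowed r Λ N ta tb t.1 (nx ta tb n t.1)
  obtain ⟨t, ht⟩ := t
  simp only
  by_cases htb : t = tb
  · left; exact ⟨htb, by rw [htb, nx_tb]⟩
  right
  refine ⟨htb, ?_⟩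
  by_cases hF : ∃ i, Forced Λ N t i
  · obtain ⟨i, hi⟩ := hF
    left
    refine ⟨i, hi, nx_of hv hr hD ht htb ?_⟩
    rw [hv.diff_off hi.1, hi.2]
  right
  push Not at hF
  refine ⟨hF, ?_⟩
  by_cases h : ∃ i, diff n t i = 1
  · obtain ⟨i, hi⟩ := h
    right
    have h1 : vert t i ∈ Λ ∨ vert t (i + 1) ∈ Λ := by
      by_contra hcon
      exact hF i ⟨hcon, by rw [← hv.diff_off hcon, hi]⟩
    refine ⟨i, nx_of hv hr hD ht htb hi, h1, ?_⟩
    rcases hv.edge' hr h1 with h2 | h2 | h2
    · omega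
    · exact h2.2
    · omega
  · push Not at h
    left
    exact nx_self htb h

end Run7.h729
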