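import Pool.Agent.Run7.h729.Lip.Flip

namespace Run7.h729

open Classical

variable {L : Type*} [LinearOrder L] {D : Finset Tri}
variable {r : V → L} {Λ : Finset V} {N : V → ℤ} {ta tb : Tri} {ia ib : Fin 3} {n m : V → ℤ}

theorem down_flip (hv : Valid r Λ N n) (hm : Valid r Λ N m) {w : V} (hw : w ∈ Λ)
    (hlt : m w < n w) :
    ∃ v ∈ Λ, m v < n v ∧ Valid r Λ N (Function.update n v (n v - 1)) := by
  set U := Λ.filter (fun v => m v < n v) with hU
  have hUne : U.Nonempty := ⟨w, Finset.mem_filter.2 ⟨hw, hlt⟩⟩
  obtain ⟨v, hvU, hmax⟩ := Finset.exists_max_image U (fun v => toLex (n v, r v)) hUne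
  have hvΛ : v ∈ Λ := (Finset.mem_filter.1 hvU).1
  have hvlt : m v < n v := (Finset.mem_filter.1 hvU).2
  have hout : ∀ u, u ∉ U → n u ≤ m u := by
    intro u hu
    by_cases h : u ∈ Λ
    · by_contra hcon
      exact hu (Finset.mem_filter.2 ⟨h, not_le.1 hcon⟩)
    · rw [hv.off u h, hm.off u h]
  refine ⟨v, hvΛ, hvlt, ?_, ?_⟩
  · intro u hu
    rw [Function.update_of_ne (fun h : u = v => hu (by rw [h]; exact hvΛ))]
    exact hv.off u hu
  · intro t i h1 h2
    have h3 := hv.edge t i h1 h2
    have h4 := hm.edge t i h1 h2
    generalize vert t i = x at *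
    generalize vert t (i + 1) = y at *
    have hxy : x ≠ y := by rintro rfl; exact lt_irrefl _ h2
    by_cases hx : x = v
    · subst hx
      rw [Function.update_of_ne hxy.symm, Function.update_self]
      rcases h3 with h3 | h3
      · right; omega
      · exfalso
        by_cases hy : y ∈ U
        · have h5 := hmax y hy
          rw [Prod.Lex.toLex_le_toLex] at h5
          simp only at h5
          omega
        · have := hout y hy
          omega
    · by_cases hy : y = v
      · subst hy
        rw [Function.update_self, Function.update_of_ne hxy]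
        rcases h3 with h3 | h3
        · exfalso
          by_cases hx : x ∈ U
          · have h5 := hmax x hx
            rw [Prod.Lex.toLex_le_toLex] at h5
            simp only at h5
            rcases h5 with h5 | h5
            · omega
            · exact absurd h5.2 (not_le.2 h2)
          · have := hout x hx
            omega
        · left; omega
      · rw [Function.update_of_ne hx, Function.update_of_ne hy]
        exact h3

theorem S_down (hr : Function.Injective r) (hD : Dob D Λ N ta tb ia ib) (hv : Valid r Λ N n)
    {v : V} (hvΛ : v ∈ Λ) (hv' : Valid r Λ N (Function.update n v (n v - 1))) :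
    S r tb (sig hv hr hD) = S r tb (sig hv' hr hD) := by
  have e : Function.update (Function.update n v (n v - 1)) v
      (Function.update n v (n v - 1) v + 1) = n := by
    rw [Function.update_self, Function.update_idem]
    simp
  have hv2 : Valid r Λ N (Function.update (Function.update n v (n v - 1)) v
      (Function.update n v (n v - 1) v + 1)) := by rw [e]; exact hv
  have h := S_flip v hvΛ hv' hv2 hr hD
  rw [← h]
  congr 2
  exact e.symm

theorem S_const_aux (hr : Function.Injective r) (hD : Dob D Λ N ta tb ia ib) (k : ℕ) :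
    ∀ (n m : V → ℤ) (hv : Valid r Λ N n) (hm : Valid r Λ N m),
    ∑ v ∈ Λ, (n v - m v).natAbs = k → S r tb (sig hv hr hD) = S r tb (sig hm hr hD) := by
  induction k using Nat.strong_induction_on with
  | _ k ih =>
    intro n m hv hm hk
    have hdec : ∀ (n m : V → ℤ) (v : V), v ∈ Λ → m v < n v →
        ∑ u ∈ Λ, (Function.update n v (n v - 1) u - m u).natAbs <
          ∑ u ∈ Λ, (n u - m u).natAbs := by
      intro n m v hv hlt
      apply Finset.sum_lt_sum
      · intro u _
        by_cases h : u = v
        · subst h; rw [Function.update_self]; omega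
        · rw [Function.update_of_ne h]
      · exact ⟨v, hv, by rw [Function.update_self]; omega⟩
    by_cases h1 : ∃ w ∈ Λ, m w < n w
    · obtain ⟨w, hw, hlt⟩ := h1
      obtain ⟨v, hvΛ, h2, h3⟩ := down_flip hv hm hw hlt
      rw [S_down hr hD hv hvΛ h3]
      exact ih _ (by rw [← hk]; exact hdec n m v hvΛ h2) _ _ h3 hm rfl
    · by_cases h2 : ∃ w ∈ Λ, n w < m w
      · obtain ⟨w, hw, hlt⟩ := h2
        obtain ⟨v, hvΛ, h2, h3⟩ := down_flip hm hv hw hlt
        rw [S_down hr hD hm hvΛ h3]
        symm
        refine ih _ ?_ _ _ h3 hv rfl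
        have h4 := hdec m n v hvΛ h2
        have h5 : ∑ u ∈ Λ, (m u - n u).natAbs = k := by
          rw [← hk]
          apply Finset.sum_congr rfl
          intro u _
          omega
        rw [h5] at h4
        exact h4
      · push Not at h1 h2
        have : n = m := by
          funext u
          by_cases hu : u ∈ Λ
          · exact le_antisymm (h1 u hu) (h2 u hu)
          · rw [hv.off u hu, hm.off u hu]
        subst this
        rfl

theorem S_const (hr : Function.Injective r) (hD : Dob D Λ N ta tb ia ib)
    (hv : Valid r Λ N n) (hm : Valid r Λ N m) :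
    S r tb (sig hv hr hD) = S r tb (sig hm hr hD) :=
  S_const_aux hr hD _ n m hv hm rfl

/-- all allowed permutations have the same signed weight -/
theorem S_allowed (hr : Function.Injective r) (hD : Dob D Λ N ta tb ia ib)
    (τ τ' : Equiv.Perm {t // t ∈ D})
    (hτ : ∀ t, Allowed r Λ N ta tb t.1 (τ t).1) (hτ' : ∀ t, Allowed r Λ N ta tb t.1 (τ' t).1) :
    S r tb τ = S r tb τ' := by
  obtain ⟨n, hn, h1⟩ := exists_valid τ hτ hD hr
  obtain ⟨m, hm, h2⟩ := exists_valid τ' hτ' hD hr
  rw [← h1, ← h2]
  exact S_const hr hD hn hm

end Run7.h729
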