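import Mathlib

/-!
# The triangular lattice, its triangles, Dobrushin domains

The vertices are the points of `ℤ × ℤ`; `(x, y)` has the six neighbours
`(x ± 1, y)`, `(x, y ± 1)`, `(x + 1, y - 1)`, `(x - 1, y + 1)`.
-/

namespace Run7.h729

/-- vertices of the triangular lattice -/
abbrev V := ℤ × ℤ

/-- triangles of the lattice -/
abbrev Tri := V × Bool

/-- the three vertices of a triangle in counterclockwise order -/
def vert : Tri → Fin 3 → V
  | ((x, y), false) => ![(x, y), (x + 1, y), (x, y + 1)]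
  | ((x, y), true) => ![(x + 1, y + 1), (x, y + 1), (x + 1, y)]

/-- the triangle on the other side of the `i`-th edge, from `vert t i` to `vert t (i + 1)` -/
def across : Tri → Fin 3 → Tri
  | ((x, y), false) => ![((x, y - 1), true), ((x, y), true), ((x - 1, y), true)]
  | ((x, y), true) => ![((x, y + 1), false), ((x, y), false), ((x + 1, y), false)]

/-- neighbours in the triangular lattice -/
def Adj (p q : V) : Prop :=
  (q.1 = p.1 + 1 ∧ q.2 = p.2) ∨ (q.1 = p.1 - 1 ∧ q.2 = p.2) ∨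
  (q.1 = p.1 ∧ q.2 = p.2 + 1) ∨ (q.1 = p.1 ∧ q.2 = p.2 - 1) ∨
  (q.1 = p.1 + 1 ∧ q.2 = p.2 - 1) ∨ (q.1 = p.1 - 1 ∧ q.2 = p.2 + 1)

end Run7.h729
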