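import Pool.Agent.Run7.h729.Lip.Conn

namespace Run7.h729

open Classical

variable {L : Type*} [LinearOrder L] {D : Finset Tri}
variable {r : V → L} {Λ : Finset V} {N : V → ℤ} {ta tb : Tri} {ia ib : Fin 3} {n m : V → ℤ}

/-- the entries `0, 1, -1` of the Kasteleyn matrix -/
noncomputable def base (r : V → L) (Λ : Finset V) (N : V → ℤ) (ta tb : Tri) (t t' : Tri) : ℤ :=
  if t = tb then (if t' = ta then 1 else 0)
  else if ∃ i, Forced Λ N t i then
    ∑ i : Fin 3, if t' = across t i ∧ Forced Λ N t i then sg r t i else 0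
  else (if t' = t then 1 else 0) +
    ∑ i : Fin 3, if t' = across t i ∧ (vert t i ∈ Λ ∨ vert t (i + 1) ∈ Λ) ∧
    r (vert t (i + 1)) < r (vert t i) then sg r t i else 0

theorem base_allowed {t t' : Tri} (h : Allowed r Λ N ta tb t t') :
    base r Λ N ta tb t t' = mm r tb t t' := by
  rcases h with ⟨h1, h2⟩ | ⟨h1, ⟨i, h2, h3⟩ | ⟨hF, h2 | ⟨i, h2, h3, h4⟩⟩⟩
  · subst h1 h2
    simp [base, mm]
  · subst h3
    rw [base, if_neg h1, if_pos ⟨i, h2⟩, mm_across h1, Finset.sum_eq_single i]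
    · rw [if_pos ⟨rfl, h2⟩]
    · intro j _ hj
      rw [if_neg]
      rintro ⟨h5, -⟩
      exact hj (across_inj _ _ _ h5).symm
    · simp
  · subst h2
    rw [base, if_neg h1, if_neg (by push Not; exact hF), if_pos rfl, mm_self,
      Finset.sum_eq_zero, add_zero]
    intro i _
    rw [if_neg]
    rintro ⟨h6, -⟩
    exact across_ne _ _ h6.symm
  · subst h2
    rw [base, if_neg h1, if_neg (by push Not; exact hF), if_neg (across_ne t i), mm_across h1,
      zero_add, Finset.sum_eq_single i]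
    · rw [if_pos ⟨rfl, h3, h4⟩]
    · intro j _ hj
      rw [if_neg]
      rintro ⟨h5, -⟩
      exact hj (across_inj _ _ _ h5).symm
    · simp

theorem base_not_allowed {t t' : Tri} (h : ¬ Allowed r Λ N ta tb t t') :
    base r Λ N ta tb t t' = 0 := by
  unfold Allowed at h
  rw [not_or] at h
  obtain ⟨h1, h2⟩ := h
  unfold base
  by_cases h3 : t = tb
  · rw [if_pos h3, if_neg (fun h => h1 ⟨h3, h⟩)]
  rw [if_neg h3]
  by_cases hF : ∃ i, Forced Λ N t i
  · rw [if_pos hF]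
    apply Finset.sum_eq_zero
    intro i _
    rw [if_neg]
    rintro ⟨h6, h7⟩
    exact h2 ⟨h3, Or.inl ⟨i, h7, h6⟩⟩
  · rw [if_neg hF]
    push Not at hF
    rw [if_neg (fun h => h2 ⟨h3, Or.inr ⟨hF, Or.inl h⟩⟩), zero_add]
    apply Finset.sum_eq_zero
    intro i _
    rw [if_neg]
    rintro ⟨h6, h7, h8⟩
    exact h2 ⟨h3, Or.inr ⟨hF, Or.inr ⟨i, h6, h7, h8⟩⟩⟩

/-- the Kasteleyn matrix with weights -/
noncomputable def kas {R : Type*} [CommRing R] (D : Finset Tri) (r : V → L) (Λ : Finset V)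
    (N : V → ℤ) (ta tb : Tri)
    (w : Tri → Tri → R) : Matrix {t // t ∈ D} {t // t ∈ D} R :=
  Matrix.of fun t t' => (base r Λ N ta tb t.1 t'.1 : R) * w t.1 t'.1

theorem det_kas (hr : Function.Injective r) (hD : Dob D Λ N ta tb ia ib) :
    ∃ s : ℤ, (s = 1 ∨ s = -1) ∧ ∀ {R : Type} [CommRing R] (w : Tri → Tri → R),
      (kas D r Λ N ta tb w).det = (s : R) *
        ∑ τ ∈ Finset.univ.filter (fun τ : Equiv.Perm {t // t ∈ D} =>
          ∀ t, Allowed r Λ N ta tb t.1 (τ t).1), ∏ t, w t.1 (τ t).1 := by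
  have hs : ∃ s : ℤ, (s = 1 ∨ s = -1) ∧ ∀ τ : Equiv.Perm {t // t ∈ D},
      (∀ t, Allowed r Λ N ta tb t.1 (τ t).1) → S r tb τ = s := by
    by_cases h : ∃ τ : Equiv.Perm {t // t ∈ D}, ∀ t, Allowed r Λ N ta tb t.1 (τ t).1
    · obtain ⟨τ, hτ⟩ := h
      exact ⟨S r tb τ, S_sq τ, fun τ' hτ' => S_allowed hr hD τ' τ hτ' hτ⟩
    · push Not at h
      refine ⟨1, Or.inl rfl, fun τ hτ => ?_⟩
      obtain ⟨t, ht⟩ := h τ
      exact absurd (hτ t) ht
  obtain ⟨s, hs1, hs2⟩ := hs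
  refine ⟨s, hs1, ?_⟩
  intro R _ w
  rw [← Matrix.det_transpose, Matrix.det_apply', Finset.mul_sum, Finset.sum_filter]
  apply Finset.sum_congr rfl
  intro τ _
  split_ifs with h
  · rw [← hs2 τ h]
    unfold S
    simp only [Matrix.transpose_apply, kas, Matrix.of_apply]
    rw [Finset.prod_mul_distrib]
    push_cast
    rw [mul_assoc]
    congr 1
    congr 1
    apply Finset.prod_congr rfl
    intro t _
    rw [base_allowed (h t)]
  · push Not at h
    obtain ⟨t, ht⟩ := h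
    have h0 : ∏ x : {t // t ∈ D}, (kas D r Λ N ta tb w).transpose (τ x) x = 0 := by
      apply Finset.prod_eq_zero (Finset.mem_univ t)
      simp only [Matrix.transpose_apply, kas, Matrix.of_apply]
      rw [base_not_allowed ht]
      simp
    rw [h0, mul_zero]

/-- valid heights and allowed permutations -/
noncomputable def validEquiv (hr : Function.Injective r) (hD : Dob D Λ N ta tb ia ib) :
    {n : V → ℤ // Valid r Λ N n} ≃ {τ : Equiv.Perm {t // t ∈ D} //
      ∀ t, Allowed r Λ N ta tb t.1 (τ t).1} :=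
  Equiv.ofBijective (fun n => ⟨sig n.2 hr hD, sig_allowed n.2 hr hD⟩) (by
    constructor
    · intro n m h
      apply Subtype.ext
      exact sig_inj n.2 m.2 hr hD (congrArg Subtype.val h)
    · rintro ⟨τ, hτ⟩
      obtain ⟨n, hn, h⟩ := exists_valid τ hτ hD hr
      exact ⟨⟨n, hn⟩, Subtype.ext h⟩)

theorem validEquiv_apply (hr : Function.Injective r) (hD : Dob D Λ N ta tb ia ib)
    (n : {n : V → ℤ // Valid r Λ N n}) (t : {t // t ∈ D}) :
    ((validEquiv hr hD n).1 t).1 = nx ta tb n.1 t.1 := rfl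

theorem det_kas' (hr : Function.Injective r) (hD : Dob D Λ N ta tb ia ib) :
    ∃ _ : Fintype {n : V → ℤ // Valid r Λ N n}, ∃ s : ℤ, (s = 1 ∨ s = -1) ∧
      ∀ {R : Type} [CommRing R] (w : Tri → Tri → R),
      (kas D r Λ N ta tb w).det = (s : R) *
        ∑ n : {n : V → ℤ // Valid r Λ N n}, ∏ t : {t // t ∈ D}, w t.1 (nx ta tb n.1 t.1) := by
  obtain ⟨s, hs, h⟩ := det_kas hr hD
  letI : Fintype {n : V → ℤ // Valid r Λ N n} := Fintype.ofEquiv _ (validEquiv hr hD).symm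
  refine ⟨inferInstance, s, hs, ?_⟩
  intro R _ w
  rw [h w]
  congr 1
  rw [← Finset.sum_subtype_eq_sum_filter, Finset.subtype_univ]
  exact (Fintype.sum_equiv (validEquiv hr hD) _ _ (fun n => rfl)).symm

end Run7.h729
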