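import Pool.Agent.Run7.h729.Lip.Sign

namespace Run7.h729

open Classical

variable {L : Type*} [LinearOrder L] {D : Finset Tri}
variable {r : V → L} {Λ : Finset V} {N : V → ℤ} {ta tb : Tri} {ia ib : Fin 3} {n : V → ℤ}

theorem prod_shift (f : Fin 6 → ℤ) : ∏ k, f (k + 1) = ∏ k, f k := by
  rw [← Equiv.prod_comp (Equiv.addRight (1 : Fin 6)) f]
  rfl

theorem nbr_ne_nbr (v : V) (k : Fin 6) : nbr v k ≠ nbr v (k + 1) := by
  rcases v with ⟨x, y⟩
  fin_cases k <;> simp [nbr]
  omega

section

variable (v : V) (hvΛ : v ∈ Λ)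
  (hv : Valid r Λ N n) (hv' : Valid r Λ N (Function.update n v (n v + 1)))
  (hr : Function.Injective r) (hD : Dob D Λ N ta tb ia ib)

noncomputable def EL (r : V → L) (v : V) (k : Fin 6) : ℤ := sg r (around v k) (idx k)

noncomputable def EH (r : V → L) (v : V) (k : Fin 6) : ℤ :=
  sg r (around v (k + 5)) (idx (k + 5) + 2)

include hvΛ hv hv' hr hD in
theorem row_prod (k : Fin 6) :
    mm r tb (around v k) (nx ta tb (Function.update n v (n v + 1)) (around v k)) *
      mm r tb (around v k) (nx ta tb n (around v k)) =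
    (if bb r v k then 1 else EL r v k) * (if bb r v (k + 1) then EH r v (k + 1) else 1) := by
  have h1 := nx_around v hvΛ hv hv' hr hD k
  have h2 := nx_around' v hvΛ hv hv' hr hD k
  by_cases htb : around v k = tb
  · obtain ⟨h3, h4⟩ := tb_pat v hvΛ hv hv' hr hD htb
    rw [htb, mm_tb, mm_tb, h3, h4]
    simp
  rw [if_neg htb] at h1 h2
  have hacr : around v (k + 5) = across (around v k) (idx k) := by
    have := across_around v (k + 5)
    rw [show k + 5 + 1 = k by fin_cases k <;> rfl] at this
    exact this.symm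
  have hacr2 : around v (k + 1) = across (around v k) (idx k + 2) := (across_around2 v k).symm
  have hEH : EH r v (k + 1) = sg r (around v k) (idx k + 2) := by
    unfold EH
    rw [show k + 1 + 5 = k by fin_cases k <;> rfl]
  cases hb : bb r v k <;> cases hb1 : bb r v (k + 1) <;> rw [h1, h2] <;> simp only [hb, hb1] <;>
    simp
  · rw [hacr, mm_across htb, mm_self, one_mul]; rfl
  · rw [hacr, mm_across htb, hacr2, mm_across htb, hEH, EL, mul_comm]
  · rw [mm_across htb]
    rcases sg_sq r (around v k) (idx k + 1) with h | h <;> rw [h] <;> simp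
  · rw [hacr2, mm_across htb, mm_self, hEH, mul_one]

include hvΛ hv hv' hr hD in
theorem prod_mm : (∏ t : {t // t ∈ D}, mm r tb t.1 (sig hv' hr hD t).1) *
      (∏ t : {t // t ∈ D}, mm r tb t.1 (sig hv hr hD t).1) =
      ∏ k, (if bb r v k then EH r v k else EL r v k) := by
  rw [← Finset.prod_mul_distrib]
  have h1 : ∏ t : {t // t ∈ D}, (mm r tb t.1 (sig hv' hr hD t).1 *
      mm r tb t.1 (sig hv hr hD t).1) = ∏ k, (mm r tb (emb v hvΛ hD k).1
        (sig hv' hr hD (emb v hvΛ hD k)).1 * mm r tb (emb v hvΛ hD k).1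
        (sig hv hr hD (emb v hvΛ hD k)).1) := by
    rw [← Finset.prod_map Finset.univ (emb v hvΛ hD) (fun t => mm r tb t.1 (sig hv' hr hD t).1 *
      mm r tb t.1 (sig hv hr hD t).1)]
    symm
    apply Finset.prod_subset (Finset.subset_univ _)
    intro t _ ht
    have ht' : t ∉ Set.range (emb v hvΛ hD) := by
      rintro ⟨k, hk⟩
      exact ht (Finset.mem_map.2 ⟨k, Finset.mem_univ _, hk⟩)
    have hnv : ∀ i, vert t.1 i ≠ v := by
      intro i hi
      obtain ⟨k, hk, -⟩ := exists_around hi
      exact ht' ⟨k, Subtype.ext hk.symm⟩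
    have hd : ∀ i, diff (Function.update n v (n v + 1)) t.1 i = diff n t.1 i := by
      intro i
      simp only [diff, Function.update_of_ne (hnv _)]
    have hnx : nx ta tb (Function.update n v (n v + 1)) t.1 = nx ta tb n t.1 := by
      unfold nx
      simp only [hd]
    have h3 : sig hv' hr hD t = sig hv hr hD t := Subtype.ext hnx
    rw [h3]
    rcases mm_sq r tb t.1 (sig hv hr hD t).1 with h | h <;> rw [h] <;> simp
  rw [h1]
  have h2 : ∀ k, (mm r tb (emb v hvΛ hD k).1
        (sig hv' hr hD (emb v hvΛ hD k)).1 * mm r tb (emb v hvΛ hD k).1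
        (sig hv hr hD (emb v hvΛ hD k)).1) =
      (if bb r v k then 1 else EL r v k) * (if bb r v (k + 1) then EH r v (k + 1) else 1) :=
    fun k => row_prod v hvΛ hv hv' hr hD k
  rw [Finset.prod_congr rfl (fun k _ => h2 k), Finset.prod_mul_distrib,
    prod_shift (fun k => if bb r v k then EH r v k else 1), ← Finset.prod_mul_distrib]
  apply Finset.prod_congr rfl
  intro k _
  cases bb r v k <;> simp

noncomputable def AA (r : V → L) (v : V) (k : Fin 6) : ℤ := csg r (around v k) (idx k)

noncomputable def BB (r : V → L) (v : V) (k : Fin 6) : ℤ := csg r (around v (k + 5)) (idx k)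

omit [LinearOrder L] in
theorem around_snd (v : V) (k : Fin 6) : (around v k).2 = decide (k.val % 2 = 1) := by
  rcases v with ⟨x, y⟩
  fin_cases k <;> simp [around]

theorem E_eq (k : Fin 6) : (if bb r v k then EH r v k else EL r v k) =
    (if bb r v k then - upsign k else upsign k) * (AA r v k * BB r v k) := by
  have e1 : idx (k + 5) + 2 = idx k := by fin_cases k <;> rfl
  have hacr : across (around v k) (idx k) = around v (k + 5) := by
    have := across_around v (k + 5)
    rwa [show k + 5 + 1 = k by fin_cases k <;> rfl] at this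
  have hacr2 : across (around v (k + 5)) (idx k) = around v k := by
    rw [← hacr, across_across]
  unfold EH EL sg AA BB
  rw [e1, hacr2, hacr, around_snd, around_snd]
  have hu : (if decide (k.val % 2 = 1) = true then (1 : ℤ) else -1) = upsign k := by
    unfold upsign
    fin_cases k <;> simp
  have hu' : (if decide ((k + 5).val % 2 = 1) = true then (1 : ℤ) else -1) = - upsign k := by
    unfold upsign
    fin_cases k <;> simp
  rw [hu, hu']
  split_ifs <;> ring

include hr in
theorem AB_eq (k : Fin 6) : AA r v k * BB r v (k + 1) =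
    (if bb r v k && bb r v (k + 1) then 1 else -1) := by
  have e3 : idx k + 2 + 1 = idx k := by fin_cases k <;> rfl
  have e5 : k + 1 + 5 = k := by fin_cases k <;> rfl
  have e6 : idx (k + 1) = idx k + 2 := by fin_cases k <;> rfl
  have e7 : idx k + 2 + 2 = idx k + 1 := by fin_cases k <;> rfl
  unfold AA BB csg
  rw [e5, e6, e3, e7, vert_around, vert_around1, vert_around2]
  have hne : r (nbr v k) ≠ r (nbr v (k + 1)) := fun h => nbr_ne_nbr v k (hr h)
  have h0 : r (nbr v k) ≠ r v := fun h => nbr_ne v k (hr h)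
  have h1 : r (nbr v (k + 1)) ≠ r v := fun h => nbr_ne v (k + 1) (hr h)
  unfold bb
  generalize r (nbr v k) = a at *
  generalize r (nbr v (k + 1)) = b at *
  generalize r v = c at *
  rcases lt_or_gt_of_ne hne with h2 | h2 <;> rcases lt_or_gt_of_ne h0 with h3 | h3 <;>
    rcases lt_or_gt_of_ne h1 with h4 | h4 <;>
    simp [h2, h3, h4, not_lt.2 h2.le, not_lt.2 h3.le, not_lt.2 h4.le]
  · exact absurd (h2.trans h4) (not_lt.2 h3.le)
  · exact absurd (h2.trans h3) (not_lt.2 h4.le)

include hr in
theorem prod_E : (∏ k, (if bb r v k then EH r v k else EL r v k)) =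
    ((Equiv.Perm.sign (perm6 (bb r v)) : ℤˣ) : ℤ) := by
  rw [Finset.prod_congr rfl (fun k _ => E_eq v k), Finset.prod_mul_distrib,
    Finset.prod_mul_distrib, ← prod_shift (BB r v), ← Finset.prod_mul_distrib,
    Finset.prod_congr rfl (fun k _ => AB_eq v hr k), ← Finset.prod_mul_distrib,
    ← sign_perm6]

include hvΛ hv hv' hr hD in
theorem S_flip : S r tb (sig hv' hr hD) = S r tb (sig hv hr hD) := by
  have h1 := prod_mm v hvΛ hv hv' hr hD
  rw [prod_E v hr] at h1
  have h2 : ((Equiv.Perm.sign (sig hv' hr hD) : ℤˣ) : ℤ) =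
      ((Equiv.Perm.sign (perm6 (bb r v)) : ℤˣ) : ℤ) *
      ((Equiv.Perm.sign (sig hv hr hD) : ℤˣ) : ℤ) := by
    rw [sig_flip v hvΛ hv hv' hr hD, Equiv.Perm.sign_mul, Equiv.Perm.viaFintypeEmbedding_sign]
    push_cast
    rfl
  unfold S
  rw [h2]
  have h3 : ∀ s : Finset {t // t ∈ D}, (∏ t ∈ s, mm r tb t.1 (sig hv hr hD t).1) = 1 ∨
      (∏ t ∈ s, mm r tb t.1 (sig hv hr hD t).1) = -1 := by
    intro s
    induction s using Finset.induction_on with
    | empty => simp
    | insert a s ha ih =>
      rw [Finset.prod_insert ha]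
      rcases mm_sq r tb a.1 (sig hv hr hD a).1 with h1 | h1 <;> rcases ih with h2 | h2 <;>
        rw [h1, h2] <;> simp
  have h4 := h3 Finset.univ
  have h5 := Int.units_eq_one_or (Equiv.Perm.sign (perm6 (bb r v)))
  have h6 : ((Equiv.Perm.sign (perm6 (bb r v)) : ℤˣ) : ℤ) = 1 ∨
      ((Equiv.Perm.sign (perm6 (bb r v)) : ℤˣ) : ℤ) = -1 := by
    rcases h5 with h5 | h5 <;> rw [h5] <;> simp
  generalize (∏ t : {t // t ∈ D}, mm r tb t.1 (sig hv' hr hD t).1) = A at *
  generalize (∏ t : {t // t ∈ D}, mm r tb t.1 (sig hv hr hD t).1) = B at *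
  generalize ((Equiv.Perm.sign (perm6 (bb r v)) : ℤˣ) : ℤ) = p at *
  generalize ((Equiv.Perm.sign (sig hv hr hD) : ℤˣ) : ℤ) = s at *
  rcases h4 with rfl | rfl <;> rcases h6 with rfl | rfl
  · have : A = 1 := by linarith
    subst this; ring
  · have : A = -1 := by linarith
    subst this; ring
  · have : A = -1 := by linarith
    subst this; ring
  · have : A = 1 := by linarith
    subst this; ring

end

end Run7.h729
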