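import Pool.Agent.Run7.h729.Lip.Point

namespace Run7.h729

open Classical MeasureTheory

section general

variable {ι : Type*} [Fintype ι]

theorem volume_box {f : (ι → ℝ) → ENNReal} (hf : Measurable f) :
    ∫⁻ x, f x = ∫⁻ θ in Set.univ.pi (fun _ : ι => Set.Ioo (0 : ℝ) 1),
      ∑' n : ι → ℤ, f (fun v => θ v + n v) := by
  have h1 : ∫⁻ θ in Set.univ.pi (fun _ : ι => Set.Ioo (0 : ℝ) 1),
      ∑' n : ι → ℤ, f (fun v => θ v + n v) =
      ∫⁻ θ in Set.univ.pi (fun _ : ι => Set.Ico (0 : ℝ) 1),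
      ∑' n : ι → ℤ, f (fun v => θ v + n v) := by
    apply setLIntegral_congr
    exact (Measure.univ_pi_Ioo_ae_eq_Icc (μ := fun _ : ι => (volume : Measure ℝ))
      (f := fun _ => 0) (g := fun _ => 1)).trans
      (Measure.univ_pi_Ico_ae_eq_Icc (μ := fun _ : ι => (volume : Measure ℝ))
      (f := fun _ => 0) (g := fun _ => 1)).symm
  have hadd : ∀ n : ι → ℤ, Measurable (fun θ : ι → ℝ => fun v => θ v + (n v : ℝ)) := by
    intro n
    fun_prop
  have hf' : ∀ n : ι → ℤ, Measurable (fun θ : ι → ℝ => f (fun v => θ v + (n v : ℝ))) :=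
    fun n => hf.comp (hadd n)
  rw [h1, lintegral_tsum (fun n => (hf' n).aemeasurable)]
  have hB : MeasurableSet (Set.univ.pi (fun _ : ι => Set.Ico (0 : ℝ) 1)) :=
    MeasurableSet.univ_pi fun _ => measurableSet_Ico
  have hbox : ∀ n : ι → ℤ, MeasurableSet {x : ι → ℝ | ∀ i, ⌊x i⌋ = n i} := by
    intro n
    rw [Set.ofPred_forall]
    apply MeasurableSet.iInter
    intro i
    exact measurableSet_eq_fun ((measurable_pi_apply i).floor) measurable_const
  have h2 : ∀ n : ι → ℤ, ∫⁻ θ in Set.univ.pi (fun _ : ι => Set.Ico (0 : ℝ) 1),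
      f (fun v => θ v + n v) = ∫⁻ x in {x : ι → ℝ | ∀ i, ⌊x i⌋ = n i}, f x := by
    intro n
    rw [← lintegral_indicator hB, ← lintegral_indicator (hbox n),
      ← lintegral_add_right_eq_self ({x : ι → ℝ | ∀ i, ⌊x i⌋ = n i}.indicator f)
        (fun v => (n v : ℝ))]
    congr 1
    funext x
    have hiff : (x + fun v => (n v : ℝ)) ∈ {x : ι → ℝ | ∀ i, ⌊x i⌋ = n i} ↔
        x ∈ Set.univ.pi (fun _ : ι => Set.Ico (0 : ℝ) 1) := by
      simp only [Set.mem_ofPred_eq, Pi.add_apply, Set.mem_univ_pi]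
      apply forall_congr'
      intro i
      rw [Int.floor_add_intCast, add_eq_right, Int.floor_eq_iff]
      simp
    by_cases h : x ∈ Set.univ.pi (fun _ : ι => Set.Ico (0 : ℝ) 1)
    · rw [Set.indicator_of_mem h, Set.indicator_of_mem (hiff.2 h)]
      rfl
    · rw [Set.indicator_of_notMem h, Set.indicator_of_notMem (fun h' => h (hiff.1 h'))]
  simp only [h2]
  rw [← lintegral_iUnion hbox]
  · have : (⋃ n : ι → ℤ, {x : ι → ℝ | ∀ i, ⌊x i⌋ = n i}) = Set.univ := by
      rw [Set.eq_univ_iff_forall]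
      intro x
      rw [Set.mem_iUnion]
      exact ⟨fun i => ⌊x i⌋, fun i => rfl⟩
    rw [this, setLIntegral_univ]
  · intro n m hnm
    rw [Function.onFun, Set.disjoint_left]
    intro x hx hx'
    exact hnm (funext fun i => by rw [← hx i, ← hx' i])

theorem ae_ne_const (i : ι) (c : ℝ) : ∀ᵐ θ : ι → ℝ, θ i ≠ c := by
  rw [ae_iff]
  simp only [not_not]
  exact Measure.pi_hyperplane (fun _ => (volume : Measure ℝ)) i c

theorem ae_ne_coord {i j : ι} (hij : i ≠ j) : ∀ᵐ θ : ι → ℝ, θ i ≠ θ j := by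
  rw [ae_iff]
  simp only [not_not]
  let s : Submodule ℝ (ι → ℝ) := LinearMap.ker
    ((LinearMap.proj i : (ι → ℝ) →ₗ[ℝ] ℝ) - (LinearMap.proj j : (ι → ℝ) →ₗ[ℝ] ℝ))
  have hs : s ≠ ⊤ := by
    intro h
    have h1 : (Pi.single i (1 : ℝ) : ι → ℝ) ∈ s := by rw [h]; trivial
    simp only [s, LinearMap.mem_ker, LinearMap.sub_apply, LinearMap.proj_apply,
      Pi.single_eq_same, Pi.single_eq_of_ne hij.symm] at h1
    norm_num at h1
  have h2 := Measure.addHaar_submodule (volume : Measure (ι → ℝ)) s hs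
  have h3 : {θ : ι → ℝ | θ i = θ j} = (s : Set (ι → ℝ)) := by
    ext θ
    simp [s, sub_eq_zero]
  rw [h3]
  exact h2

end general

variable (G : Dom) {l : ℝ}

theorem Dom.measurable_height (v : V) : Measurable (fun h : G.Field => G.height l h v) := by
  unfold Dom.height
  by_cases hv : v ∈ inner G.D
  · simp only [hv, dif_pos]
    exact measurable_pi_apply _
  · simp only [hv, dif_neg, not_false_eq_true]
    exact measurable_const

theorem Dom.measurableSet_lipschitz : MeasurableSet (G.Lipschitz l) := by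
  unfold Dom.Lipschitz
  have : {h : G.Field | ∀ t ∈ G.D, ∀ i, |G.height l h (vert t (i + 1)) -
      G.height l h (vert t i)| ≤ 1} = ⋂ t ∈ G.D, ⋂ i : Fin 3, {h : G.Field |
      |G.height l h (vert t (i + 1)) - G.height l h (vert t i)| ≤ 1} := by
    ext h
    simp
  rw [this]
  apply Finset.measurableSet_biInter
  intro t _
  apply MeasurableSet.iInter
  intro i
  apply measurableSet_le _ measurable_const
  have h1 := (G.measurable_height (l := l) (vert t (i + 1))).sub
    (G.measurable_height (l := l) (vert t i))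
  exact measurable_abs.comp h1

theorem Dom.measurableSet_follows (k : ℕ) (s : ℕ → Tri) : MeasurableSet (G.Follows l k s) := by
  unfold Dom.Follows
  have : {h : G.Field | ∀ i < k, ∃ j, s (i + 1) = across (s i) j ∧
      G.height l h (vert (s i) j) < 0 ∧ 0 < G.height l h (vert (s i) (j + 1))} =
      ⋂ i ∈ Finset.range k, ⋃ j : Fin 3, {h : G.Field | s (i + 1) = across (s i) j ∧
      G.height l h (vert (s i) j) < 0 ∧ 0 < G.height l h (vert (s i) (j + 1))} := by
    ext h
    simp
  rw [this]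
  apply Finset.measurableSet_biInter
  intro i _
  apply MeasurableSet.iUnion
  intro j
  apply (MeasurableSet.const _).inter
  exact (measurableSet_lt (G.measurable_height _) measurable_const).inter
    (measurableSet_lt measurable_const (G.measurable_height _))

theorem Dom.ae_gen : ∀ᵐ θ ∂(volume : Measure G.Field).restrict
    (Set.univ.pi (fun _ => Set.Ioo (0 : ℝ) 1)), G.Gen l θ := by
  have hB : MeasurableSet (Set.univ.pi (fun _ : {v // v ∈ inner G.D} => Set.Ioo (0 : ℝ) 1)) :=
    MeasurableSet.univ_pi fun _ => measurableSet_Ioo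
  have h1 : ∀ᵐ θ : G.Field, ∀ i j : {v // v ∈ inner G.D}, i ≠ j → θ i ≠ θ j := by
    rw [ae_all_iff]
    intro i
    rw [ae_all_iff]
    intro j
    by_cases hij : i = j
    · exact Filter.Eventually.of_forall fun θ h => absurd hij h
    · filter_upwards [ae_ne_coord hij] with θ h _
      exact h
  have h2 : ∀ᵐ θ : G.Field, ∀ i, θ i ≠ l := by
    rw [ae_all_iff]
    exact fun i => ae_ne_const i l
  have h3 : ∀ᵐ θ : G.Field, ∀ i, θ i ≠ 1 - l := by
    rw [ae_all_iff]
    exact fun i => ae_ne_const i (1 - l)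
  filter_upwards [ae_restrict_mem hB, ae_restrict_of_ae h1, ae_restrict_of_ae h2,
    ae_restrict_of_ae h3] with θ h0 h1 h2 h3
  rw [Set.mem_univ_pi] at h0
  refine ⟨fun v => (h0 v).1, fun v => (h0 v).2, ?_, h2, h3⟩
  intro i j hij
  by_contra hne
  exact h1 i j hne hij

theorem Dom.volume_eq (hl : 0 < l) (hl' : l ≤ 1 / 2) (k : ℕ) (s : ℕ → Tri)
    (h0 : s 0 = G.ta) (hs : ∀ i < k, s i ≠ G.tb) :
    volume (G.Lipschitz l ∩ G.Follows l k s) =
      ∫⁻ θ : G.Field in Set.univ.pi (fun _ => Set.Ioo (0 : ℝ) 1),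
        ENNReal.ofReal |(G.matrix l θ k s).det| := by
  have hm : MeasurableSet (G.Lipschitz l ∩ G.Follows l k s) :=
    G.measurableSet_lipschitz.inter (G.measurableSet_follows k s)
  have h1 : volume (G.Lipschitz l ∩ G.Follows l k s) = ∫⁻ x,
      (G.Lipschitz l ∩ G.Follows l k s).indicator (fun _ => (1 : ENNReal)) x := by
    rw [lintegral_indicator hm, setLIntegral_one]
  rw [h1, volume_box (measurable_const.indicator hm)]
  apply lintegral_congr_ae
  filter_upwards [G.ae_gen (l := l)] with θ hg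
  exact Dom.count hl hl' hg h0 hs

end Run7.h729
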