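import Pool.Agent.Run7.h729.Lip.Defs

/-!
# Random Lipschitz functions on a lattice domain with Dobrushin boundary values

The definitions used in the statement of the interface law.
-/

namespace Run7.h729

open Classical MeasureTheory

/-- the inner vertices of a finite set `D` of triangles: all six triangles at the vertex are
in `D` -/
noncomputable def inner (D : Finset Tri) : Finset V :=
  (D.biUnion fun t => Finset.univ.image (vert t)).filter fun v => ∀ t i, vert t i = v → t ∈ D

/-- A lattice domain: a finite set `D` of triangles and the set `P` of vertices on the plus side.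
Exactly one boundary edge (the edge `ia` of the triangle `ta`) runs, counterclockwise, from plus to
minus, exactly one (the edge `ib` of `tb`) from minus to plus; the vertices that are not inner are
connected in the lattice. -/
structure Dom where
  D : Finset Tri
  P : Set V
  ta : Tri
  tb : Tri
  ia : Fin 3
  ib : Fin 3
  ne : ta ≠ tb
  start : ∀ t i, (t ∈ D ∧ across t i ∉ D ∧ vert t i ∈ P ∧ vert t (i + 1) ∉ P) ↔
    (t = ta ∧ i = ia)
  finish : ∀ t i, (t ∈ D ∧ across t i ∉ D ∧ vert t i ∉ P ∧ vert t (i + 1) ∈ P) ↔
    (t = tb ∧ i = ib)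
  conn : ∀ u w, u ∉ inner D → w ∉ inner D →
    Relation.ReflTransGen (fun p q => Adj p q ∧ p ∉ inner D ∧ q ∉ inner D) u w

/-- the vector of values at the inner vertices -/
abbrev Dom.Field (G : Dom) : Type := {v // v ∈ inner G.D} → ℝ

/-- the height function: `l` on the plus arc, `-l` on the minus arc -/
noncomputable def Dom.height (G : Dom) (l : ℝ) (h : G.Field) (v : V) : ℝ :=
  if hv : v ∈ inner G.D then h ⟨v, hv⟩ else if v ∈ G.P then l else -l

/-- the heights that change by at most one along every edge of `D` -/
def Dom.Lipschitz (G : Dom) (l : ℝ) : Set G.Field :=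
  {h | ∀ t ∈ G.D, ∀ i, |G.height l h (vert t (i + 1)) - G.height l h (vert t i)| ≤ 1}

/-- the first `k` steps of the interface are `s 0, s 1, …, s k`: it leaves `s i` across an edge
with a negative height on its right and a positive height on its left -/
def Dom.Follows (G : Dom) (l : ℝ) (k : ℕ) (s : ℕ → Tri) : Set G.Field :=
  {h | ∀ i < k, ∃ j, s (i + 1) = across (s i) j ∧ G.height l h (vert (s i) j) < 0 ∧
    0 < G.height l h (vert (s i) (j + 1))}

/-- the label of a vertex: its fractional part, ties broken by the coordinates -/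
noncomputable def Dom.label (G : Dom) (l : ℝ) (θ : G.Field) (v : V) : ℝ ×ₗ (ℤ ×ₗ ℤ) :=
  toLex (if hv : v ∈ inner G.D then θ ⟨v, hv⟩ else if v ∈ G.P then l else 1 - l, toLex v)

/-- `-1` if the vertex of `t` opposite to the edge `i` has a smaller label than both ends -/
noncomputable def Dom.corner (G : Dom) (l : ℝ) (θ : G.Field) (t : Tri) (i : Fin 3) : ℤ :=
  if G.label l θ (vert t (i + 2)) < G.label l θ (vert t i) ∧
    G.label l θ (vert t (i + 2)) < G.label l θ (vert t (i + 1)) then -1 else 1

/-- the sign of the step from `t` across its edge `i` -/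
noncomputable def Dom.sign (G : Dom) (l : ℝ) (θ : G.Field) (t : Tri) (i : Fin 3) : ℤ :=
  (if t.2 then 1 else -1) * G.corner l θ t i * G.corner l θ (across t i) i

/-- the edge `i` of `t` joins two vertices that are not inner, from minus to plus -/
def Dom.Chord (G : Dom) (t : Tri) (i : Fin 3) : Prop :=
  vert t i ∉ inner G.D ∧ vert t (i + 1) ∉ inner G.D ∧ vert t i ∉ G.P ∧ vert t (i + 1) ∈ G.P

/-- the edge `i` of `t` has an inner end and its labels decrease -/
def Dom.Step (G : Dom) (l : ℝ) (θ : G.Field) (t : Tri) (i : Fin 3) : Prop :=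
  (vert t i ∈ inner G.D ∨ vert t (i + 1) ∈ inner G.D) ∧
    G.label l θ (vert t (i + 1)) < G.label l θ (vert t i)

/-- the entries of the matrix -/
noncomputable def Dom.entry (G : Dom) (l : ℝ) (θ : G.Field) (t t' : Tri) : ℤ :=
  if t = G.tb then (if t' = G.ta then 1 else 0)
  else if ∃ i, G.Chord t i then
    ∑ i, if t' = across t i ∧ G.Chord t i then G.sign l θ t i else 0
  else (if t' = t then 1 else 0) +
    ∑ i, if t' = across t i ∧ G.Step l θ t i then G.sign l θ t i else 0

/-- the matrix, with all entries of the row `s i`, `i < k`, deleted except the one at `s (i + 1)` -/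
noncomputable def Dom.matrix (G : Dom) (l : ℝ) (θ : G.Field) (k : ℕ) (s : ℕ → Tri) :
    Matrix {t // t ∈ G.D} {t // t ∈ G.D} ℝ :=
  Matrix.of fun t t' => if ∃ i < k, t.1 = s i ∧ t'.1 ≠ s (i + 1) then 0 else
    (G.entry l θ t.1 t'.1 : ℝ)

end Run7.h729
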