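import Mathlib

namespace Run7.h729

/-- the cyclic shift of the columns when a vertex with pattern `b` is raised
(`b k = true`: the `k`-th neighbour is above) -/
def piF (b : Fin 6 → Bool) (j : Fin 6) : Fin 6 :=
  if !b j && b (j + 1) then j
  else if !b (j + 1) then (if !b (j + 2) then j + 1 else j + 2)
  else j + 1

def pjF (b : Fin 6 → Bool) (j : Fin 6) : Fin 6 :=
  if !b j && b (j + 1) then j
  else if !b j then j + 5
  else if b (j + 5) then j + 5 else j + 4

theorem pjF_piF : ∀ (b : Fin 6 → Bool) (j : Fin 6), pjF b (piF b j) = j := by decide +kernel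

theorem piF_pjF : ∀ (b : Fin 6 → Bool) (j : Fin 6), piF b (pjF b j) = j := by decide +kernel

def perm6 (b : Fin 6 → Bool) : Equiv.Perm (Fin 6) where
  toFun := piF b
  invFun := pjF b
  left_inv := pjF_piF b
  right_inv := piF_pjF b

def upsign (k : Fin 6) : ℤ := if k.val % 2 = 0 then -1 else 1

theorem sign_perm6 : ∀ b : Fin 6 → Bool,
    ((Equiv.Perm.sign (perm6 b) : ℤˣ) : ℤ) =
      ∏ k, ((if b k then - upsign k else upsign k) *
        (if b k && b (k + 1) then 1 else -1)) := by
  decide +kernel

end Run7.h729
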