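import Pool.Agent.Run7.h729.Lip.Model
import Pool.Agent.Run7.h729.Lip.Det

namespace Run7.h729

open Classical

theorem mem_inner {D : Finset Tri} {v : V} : v ∈ inner D ↔ ∀ t i, vert t i = v → t ∈ D := by
  unfold inner
  rw [Finset.mem_filter]
  constructor
  · exact fun h => h.2
  · intro h
    refine ⟨?_, h⟩
    rw [Finset.mem_biUnion]
    refine ⟨around v 0, h _ _ (vert_around v 0), ?_⟩
    rw [Finset.mem_image]
    exact ⟨idx 0, Finset.mem_univ _, vert_around v 0⟩

variable (G : Dom) {l : ℝ}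

/-- the integer parts off the inner vertices -/
noncomputable def Dom.N (v : V) : ℤ := if v ∈ G.P then 0 else -1

theorem Dom.dob : Dob G.D (inner G.D) G.N G.ta G.tb G.ia G.ib := by
  have hs := (G.start G.ta G.ia).2 ⟨rfl, rfl⟩
  have hf := (G.finish G.tb G.ib).2 ⟨rfl, rfl⟩
  refine ⟨fun t i h => mem_inner.1 h t i rfl, hs.1, hf.1, hs.2.1, hf.2.1, G.ne, ?_, ?_, ?_, ?_,
    G.conn⟩
  · simp [Dom.N, hs.2.2.1, hs.2.2.2]
  · simp [Dom.N, hf.2.2.1, hf.2.2.2]
  · intro t _ i _ _
    unfold Dom.N
    split_ifs <;> simp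
  · intro t ht i hi
    by_cases h1 : vert t i ∈ G.P <;> by_cases h2 : vert t (i + 1) ∈ G.P
    · left; simp [Dom.N, h1, h2]
    · right; left; exact (G.start t i).1 ⟨ht, hi, h1, h2⟩
    · right; right; exact (G.finish t i).1 ⟨ht, hi, h1, h2⟩
    · left; simp [Dom.N, h1, h2]

theorem Dom.label_inj (θ : G.Field) : Function.Injective (G.label l θ) := by
  intro u v h
  unfold Dom.label at h
  have h2 := congrArg (fun x => (ofLex x).2) h
  simpa using h2

theorem Dom.forced_iff (t : Tri) (i : Fin 3) : Forced (inner G.D) G.N t i ↔ G.Chord t i := by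
  unfold Forced Dom.Chord Dom.N
  constructor
  · rintro ⟨h1, h2⟩
    push Not at h1
    refine ⟨h1.1, h1.2, ?_⟩
    split_ifs at h2 <;> simp_all
  · rintro ⟨h1, h2, h3, h4⟩
    refine ⟨by push Not; exact ⟨h1, h2⟩, ?_⟩
    simp [h3, h4]

theorem Dom.entry_eq (θ : G.Field) (t t' : Tri) :
    G.entry l θ t t' = base (G.label l θ) (inner G.D) G.N G.ta G.tb t t' := by
  have hsg : ∀ t i, G.sign l θ t i = sg (G.label l θ) t i := by
    intro t i
    unfold Dom.sign sg Dom.corner csg
    congr!
  unfold Dom.entry base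
  simp only [G.forced_iff, hsg, Dom.Step]

/-- the weights of the paths that follow `s` -/
noncomputable def wt (k : ℕ) (s : ℕ → Tri) (t t' : Tri) : ℝ :=
  if ∃ i < k, t = s i ∧ t' ≠ s (i + 1) then 0 else 1

theorem Dom.matrix_eq (θ : G.Field) (k : ℕ) (s : ℕ → Tri) :
    G.matrix l θ k s = kas G.D (G.label l θ) (inner G.D) G.N G.ta G.tb (wt k s) := by
  ext t t'
  simp only [Dom.matrix, kas, Matrix.of_apply, wt, G.entry_eq]
  split_ifs <;> simp

/-- the integer part extended by the boundary values -/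
noncomputable def Dom.nn (n : {v // v ∈ inner G.D} → ℤ) (v : V) : ℤ :=
  if hv : v ∈ inner G.D then n ⟨v, hv⟩ else G.N v

/-- the fractional part extended by the boundary values -/
noncomputable def Dom.fr (l : ℝ) (θ : G.Field) (v : V) : ℝ :=
  if hv : v ∈ inner G.D then θ ⟨v, hv⟩ else if v ∈ G.P then l else 1 - l

/-- generic fractional parts -/
structure Dom.Gen (l : ℝ) (θ : G.Field) : Prop where
  pos : ∀ v, 0 < θ v
  lt : ∀ v, θ v < 1
  inj : Function.Injective θ
  ne1 : ∀ v, θ v ≠ l
  ne2 : ∀ v, θ v ≠ 1 - l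

variable {G}
variable {θ : G.Field} {n : {v // v ∈ inner G.D} → ℤ}

theorem Dom.height_eq (v : V) :
    G.height l (fun v => θ v + n v) v = G.fr l θ v + G.nn n v := by
  unfold Dom.height Dom.fr Dom.nn Dom.N
  split_ifs <;> push_cast <;> ring

theorem Dom.fr_mem (hl : 0 < l) (hl' : l ≤ 1 / 2) (hg : G.Gen l θ) (v : V) :
    0 < G.fr l θ v ∧ G.fr l θ v < 1 := by
  unfold Dom.fr
  split_ifs
  · exact ⟨hg.pos _, hg.lt _⟩
  · exact ⟨hl, by linarith⟩
  · exact ⟨by linarith, by linarith⟩

theorem Dom.fr_ne (hg : G.Gen l θ) {u v : V} (huv : u ≠ v)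
    (h : u ∈ inner G.D ∨ v ∈ inner G.D) : G.fr l θ u ≠ G.fr l θ v := by
  unfold Dom.fr
  split_ifs with h1 h2 h3 h4 h5 h6
  · exact fun h => huv (by simpa using hg.inj h)
  · exact hg.ne1 _
  · exact hg.ne2 _
  · exact (hg.ne1 _).symm
  · exact absurd h (by tauto)
  · exact absurd h (by tauto)
  · exact (hg.ne2 _).symm
  · exact absurd h (by tauto)
  · exact absurd h (by tauto)

theorem Dom.label_lt (hg : G.Gen l θ) {u v : V} (huv : u ≠ v)
    (h : u ∈ inner G.D ∨ v ∈ inner G.D) :
    G.label l θ u < G.label l θ v ↔ G.fr l θ u < G.fr l θ v := by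
  have h1 := Dom.fr_ne hg huv h
  have h2 : G.label l θ u = toLex (G.fr l θ u, toLex u) := rfl
  have h3 : G.label l θ v = toLex (G.fr l θ v, toLex v) := rfl
  rw [h2, h3, Prod.Lex.toLex_lt_toLex]
  simp only
  constructor
  · rintro (h4 | h4)
    · exact h4
    · exact absurd h4.1 h1
  · exact Or.inl

theorem vert_ne (t : Tri) (i : Fin 3) : vert t i ≠ vert t (i + 1) := by
  intro h
  have := vert_inj t h
  revert this
  fin_cases i <;> simp

theorem Dom.nn_off {v : V} (hv : v ∉ inner G.D) : G.nn n v = G.N v := by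
  simp [Dom.nn, hv]

theorem Dom.valid_iff (hl : 0 < l) (hl' : l ≤ 1 / 2) (hg : G.Gen l θ) :
    (fun v => θ v + n v : G.Field) ∈ G.Lipschitz l ↔
      Valid (G.label l θ) (inner G.D) G.N (G.nn n) := by
  constructor
  · intro h
    refine ⟨fun v hv => Dom.nn_off hv, ?_⟩
    intro t i h1 h2
    have ht : t ∈ G.D := (G.dob).mem' h1
    have h3 := h t ht i
    rw [Dom.height_eq, Dom.height_eq] at h3
    rw [Dom.label_lt hg (vert_ne t i).symm h1.symm] at h2
    have h4 := Dom.fr_mem hl hl' hg (vert t i)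
    have h5 := Dom.fr_mem hl hl' hg (vert t (i + 1))
    rw [abs_le] at h3
    have h6 : ((G.nn n (vert t (i + 1)) : ℤ) : ℝ) - (G.nn n (vert t i) : ℤ) < 2 := by linarith
    have h7 : (-1 : ℝ) < ((G.nn n (vert t (i + 1)) : ℤ) : ℝ) - (G.nn n (vert t i) : ℤ) := by
      linarith
    have h8 : G.nn n (vert t (i + 1)) - G.nn n (vert t i) < 2 := by exact_mod_cast h6
    have h9 : -1 < G.nn n (vert t (i + 1)) - G.nn n (vert t i) := by exact_mod_cast h7
    omega
  · intro h t ht i
    rw [Dom.height_eq, Dom.height_eq]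
    by_cases h1 : vert t i ∈ inner G.D ∨ vert t (i + 1) ∈ inner G.D
    · have h4 := Dom.fr_mem hl hl' hg (vert t i)
      have h5 := Dom.fr_mem hl hl' hg (vert t (i + 1))
      rcases h.edge' (G.label_inj θ) h1 with h2 | h2 | h2
      · simp only [diff] at h2
        have h3 : ((G.nn n (vert t (i + 1)) : ℤ) : ℝ) = (G.nn n (vert t i) : ℤ) := by
          have : G.nn n (vert t (i + 1)) = G.nn n (vert t i) := by omega
          rw [this]
        rw [h3, abs_le]
        constructor <;> linarith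
      · obtain ⟨h2, h6⟩ := h2
        rw [Dom.label_lt hg (vert_ne t i).symm h1.symm] at h6
        simp only [diff] at h2
        have h3 : ((G.nn n (vert t (i + 1)) : ℤ) : ℝ) = (G.nn n (vert t i) : ℤ) + 1 := by
          have : G.nn n (vert t (i + 1)) = G.nn n (vert t i) + 1 := by omega
          rw [this]; push_cast; ring
        rw [h3, abs_le]
        constructor <;> linarith
      · obtain ⟨h2, h6⟩ := h2
        rw [Dom.label_lt hg (vert_ne t i) h1] at h6
        simp only [diff] at h2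
        have h3 : ((G.nn n (vert t (i + 1)) : ℤ) : ℝ) = (G.nn n (vert t i) : ℤ) - 1 := by
          have : G.nn n (vert t (i + 1)) = G.nn n (vert t i) - 1 := by omega
          rw [this]; push_cast; ring
        rw [h3, abs_le]
        constructor <;> linarith
    · push Not at h1
      rw [Dom.nn_off h1.1, Dom.nn_off h1.2]
      unfold Dom.fr Dom.N
      simp only [h1.1, h1.2, dif_neg, not_false_eq_true]
      split_ifs <;> push_cast <;> rw [abs_le] <;> constructor <;> linarith

theorem Dom.neg_iff (hl : 0 < l) (hl' : l ≤ 1 / 2) (hg : G.Gen l θ) (v : V) :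
    G.height l (fun v => θ v + n v) v < 0 ↔ G.nn n v ≤ -1 := by
  rw [Dom.height_eq]
  have h4 := Dom.fr_mem hl hl' hg v
  constructor
  · intro h
    have : (G.nn n v : ℝ) < 0 := by linarith
    have : G.nn n v < 0 := by exact_mod_cast this
    omega
  · intro h
    have : (G.nn n v : ℝ) ≤ -1 := by exact_mod_cast h
    linarith

theorem Dom.pos_iff (hl : 0 < l) (hl' : l ≤ 1 / 2) (hg : G.Gen l θ) (v : V) :
    0 < G.height l (fun v => θ v + n v) v ↔ 0 ≤ G.nn n v := by
  rw [Dom.height_eq]
  have h4 := Dom.fr_mem hl hl' hg v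
  constructor
  · intro h
    have : (-1 : ℝ) < (G.nn n v : ℝ) := by linarith
    have : -1 < G.nn n v := by exact_mod_cast this
    omega
  · intro h
    have : (0 : ℝ) ≤ (G.nn n v : ℝ) := by exact_mod_cast h
    linarith

theorem three_of {d : Fin 3 → ℤ} (hm : ∀ i, d i = 0 ∨ d i = 1 ∨ d i = -1) {f : Fin 3 → ℤ}
    (hd : ∀ i, d i = f (i + 1) - f i) {i j : Fin 3} (hi0 : f i = 0) (hi : d i = -1)
    (hj : d j = 1) : f j = -1 ∧ f (j + 1) = 0 := by
  have h0 := hm 0
  have h1 := hm 1
  have h2 := hm 2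
  have e0 := hd 0
  have e1 := hd 1
  have e2 := hd 2
  simp only [Fin.isValue, zero_add, show (1 : Fin 3) + 1 = 2 from rfl,
    show (2 : Fin 3) + 1 = 0 from rfl] at e0 e1 e2
  rcases fin3_cases i with rfl | rfl | rfl <;> rcases fin3_cases j with rfl | rfl | rfl <;>
    simp only [Fin.isValue, zero_add, show (1 : Fin 3) + 1 = 2 from rfl,
      show (2 : Fin 3) + 1 = 0 from rfl] <;> omega

/-- following the interface means following the permutation -/
theorem Dom.follows_iff (hl : 0 < l) (hl' : l ≤ 1 / 2) (hg : G.Gen l θ)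
    (hv : Valid (G.label l θ) (inner G.D) G.N (G.nn n)) {k : ℕ} {s : ℕ → Tri}
    (h0 : s 0 = G.ta) (hs : ∀ i < k, s i ≠ G.tb) :
    (fun v => θ v + n v : G.Field) ∈ G.Follows l k s ↔
      ∀ i < k, nx G.ta G.tb (G.nn n) (s i) = s (i + 1) := by
  have hr := G.label_inj (l := l) θ
  have hD := G.dob
  constructor
  · intro h
    have hmem : ∀ i ≤ k, s i ∈ G.D ∧ (i < k → nx G.ta G.tb (G.nn n) (s i) = s (i + 1)) := by
      intro i
      induction i with
      | zero =>
        intro _
        have hm : s 0 ∈ G.D := by rw [h0]; exact hD.ta_mem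
        refine ⟨hm, fun hk => ?_⟩
        obtain ⟨j, h1, h2, h3⟩ := h 0 hk
        rw [Dom.neg_iff hl hl' hg] at h2
        rw [Dom.pos_iff hl hl' hg] at h3
        have h4 : diff (G.nn n) (s 0) j = 1 := by
          rcases hv.diff_mem hr hD hm j with h5 | h5 | h5 <;> simp only [diff] at h5 ⊢ <;> omega
        rw [nx_of hv hr hD hm (hs 0 hk) h4, h1]
      | succ i ih =>
        intro hik
        have ih' := ih (by omega)
        have hm : s (i + 1) ∈ G.D := by
          rw [← ih'.2 (by omega)]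
          exact nx_mem hv hr hD ih'.1
        refine ⟨hm, fun hk => ?_⟩
        obtain ⟨j, h1, h2, h3⟩ := h (i + 1) hk
        rw [Dom.neg_iff hl hl' hg] at h2
        rw [Dom.pos_iff hl hl' hg] at h3
        have h4 : diff (G.nn n) (s (i + 1)) j = 1 := by
          rcases hv.diff_mem hr hD hm j with h5 | h5 | h5 <;> simp only [diff] at h5 ⊢ <;> omega
        rw [nx_of hv hr hD hm (hs (i + 1) hk) h4, h1]
    exact fun i hi => (hmem i hi.le).2 hi
  · intro h
    have key : ∀ i ≤ k, s i ∈ G.D ∧ (∃ j, G.nn n (vert (s i) j) = 0 ∧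
        diff (G.nn n) (s i) j = -1) ∧ (i < k → ∃ j, s (i + 1) = across (s i) j ∧
        G.nn n (vert (s i) j) = -1 ∧ G.nn n (vert (s i) (j + 1)) = 0) := by
      have step : ∀ i, i < k → s i ∈ G.D → (∃ j, G.nn n (vert (s i) j) = 0 ∧
          diff (G.nn n) (s i) j = -1) → ∃ j, s (i + 1) = across (s i) j ∧
          G.nn n (vert (s i) j) = -1 ∧ G.nn n (vert (s i) (j + 1)) = 0 := by
        rintro i hi hm ⟨j, hj0, hj⟩
        obtain ⟨j', hj'⟩ := opp hv hr hD hm (Or.inr rfl) hj
        rw [neg_neg] at hj'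
        have h1 := nx_of hv hr hD hm (hs i hi) hj'
        have h2 := three_of (hv.diff_mem hr hD hm) (f := fun i' => G.nn n (vert (s i) i'))
          (fun i' => rfl) hj0 hj hj'
        exact ⟨j', by rw [← h i hi, h1], h2.1, h2.2⟩
      intro i
      induction i with
      | zero =>
        intro _
        have hm : s 0 ∈ G.D := by rw [h0]; exact hD.ta_mem
        have hin : ∃ j, G.nn n (vert (s 0) j) = 0 ∧ diff (G.nn n) (s 0) j = -1 := by
          refine ⟨G.ia, ?_, ?_⟩
          · rw [h0, Dom.nn_off hD.a_off.1]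
            have := ((G.start G.ta G.ia).2 ⟨rfl, rfl⟩).2.2.1
            simp [Dom.N, this]
          · rw [h0]; exact diff_ta hv hD
        exact ⟨hm, hin, fun hk => step 0 hk hm hin⟩
      | succ i ih =>
        intro hik
        obtain ⟨hm, hin, hout⟩ := ih (by omega)
        obtain ⟨j, h1, h2, h3⟩ := hout (by omega)
        have hm' : s (i + 1) ∈ G.D := by
          rw [← h i (by omega)]
          exact nx_mem hv hr hD hm
        have hin' : ∃ j, G.nn n (vert (s (i + 1)) j) = 0 ∧
            diff (G.nn n) (s (i + 1)) j = -1 := by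
          refine ⟨j, ?_, ?_⟩
          · rw [h1, vert_across, h3]
          · simp only [diff]
            rw [h1, vert_across, vert_across', h2, h3]
            norm_num
        exact ⟨hm', hin', fun hk => step (i + 1) hk hm' hin'⟩
    intro i hi
    obtain ⟨j, h1, h2, h3⟩ := (key i hi.le).2.2 hi
    exact ⟨j, h1, (Dom.neg_iff hl hl' hg _).2 (by omega), (Dom.pos_iff hl hl' hg _).2 (by omega)⟩

theorem prod_wt (hD : Dob G.D (inner G.D) G.N G.ta G.tb G.ia G.ib)
    {m : V → ℤ} {r : V → ℝ ×ₗ (ℤ ×ₗ ℤ)}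
    (hv : Valid r (inner G.D) G.N m) (hr : Function.Injective r)
    {k : ℕ} {s : ℕ → Tri} (h0 : s 0 = G.ta) :
    ∏ t : {t // t ∈ G.D}, wt k s t.1 (nx G.ta G.tb m t.1) =
      if (∀ i < k, nx G.ta G.tb m (s i) = s (i + 1)) then 1 else 0 := by
  split_ifs with h
  · apply Finset.prod_eq_one
    intro t _
    unfold wt
    rw [if_neg]
    rintro ⟨i, hi, h1, h2⟩
    rw [h1] at h2
    exact h2 (h i hi)
  · push Not at h
    -- the first deviation
    have hex : ∃ i, i < k ∧ nx G.ta G.tb m (s i) ≠ s (i + 1) := h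
    have h1 := Nat.find_spec hex
    have h2 : ∀ i < Nat.find hex, nx G.ta G.tb m (s i) = s (i + 1) := by
      intro i hi
      have := Nat.find_min hex hi
      push Not at this
      exact this (lt_trans hi h1.1)
    generalize Nat.find hex = i0 at h1 h2
    have hm : ∀ i ≤ i0, s i ∈ G.D := by
      intro i
      induction i with
      | zero => intro _; rw [h0]; exact hD.ta_mem
      | succ i ih =>
        intro hi
        rw [← h2 i (by omega)]
        exact nx_mem hv hr hD (ih (by omega))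
    apply Finset.prod_eq_zero (Finset.mem_univ (⟨s i0, hm i0 le_rfl⟩ : {t // t ∈ G.D}))
    unfold wt
    rw [if_pos]
    exact ⟨i0, h1.1, rfl, h1.2⟩

/-- the number of integer parts is the absolute value of the determinant -/
theorem Dom.count (hl : 0 < l) (hl' : l ≤ 1 / 2) (hg : G.Gen l θ) {k : ℕ} {s : ℕ → Tri}
    (h0 : s 0 = G.ta) (hs : ∀ i < k, s i ≠ G.tb) :
    ∑' n : {v // v ∈ inner G.D} → ℤ,
      (G.Lipschitz l ∩ G.Follows l k s).indicator (fun _ => (1 : ENNReal))
        (fun v => θ v + n v) = ENNReal.ofReal |(G.matrix l θ k s).det| := by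
  have hr := G.label_inj (l := l) θ
  have hD := G.dob
  obtain ⟨_, σ, hσ, hdet⟩ := det_kas' hr hD
  have h1 := hdet (wt k s)
  rw [← G.matrix_eq] at h1
  have h2 : |(G.matrix l θ k s).det| =
      ∑ m : {n : V → ℤ // Valid (G.label l θ) (inner G.D) G.N n},
        (if (∀ i < k, nx G.ta G.tb m.1 (s i) = s (i + 1)) then (1 : ℝ) else 0) := by
    rw [h1, abs_mul]
    have h3 : |((σ : ℤ) : ℝ)| = 1 := by rcases hσ with rfl | rfl <;> simp
    rw [h3, one_mul, Finset.sum_congr rfl (fun m _ => prod_wt hD m.2 hr h0), abs_of_nonneg]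
    exact Finset.sum_nonneg fun m _ => by split_ifs <;> norm_num
  rw [h2, ENNReal.ofReal_sum_of_nonneg (fun m _ => by split_ifs <;> norm_num)]
  -- the restriction map
  let F : {m : V → ℤ // Valid (G.label l θ) (inner G.D) G.N m} → ({v // v ∈ inner G.D} → ℤ) :=
    fun m v => m.1 v.1
  have hF : ∀ m, G.nn (F m) = m.1 := by
    intro m
    funext v
    unfold Dom.nn
    split_ifs with h
    · rfl
    · exact (m.2.off v h).symm
  have hFinj : Function.Injective F := by
    intro m m' h
    apply Subtype.ext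
    rw [← hF m, ← hF m', h]
  rw [← hFinj.tsum_eq (f := fun n => (G.Lipschitz l ∩ G.Follows l k s).indicator
    (fun _ => (1 : ENNReal)) (fun v => θ v + n v : G.Field)), tsum_fintype]
  · apply Finset.sum_congr rfl
    intro m _
    have hm := m.2
    rw [← hF m] at hm
    have h4 := (Dom.valid_iff hl hl' hg).2 hm
    have h5 := Dom.follows_iff hl hl' hg hm h0 hs
    rw [hF m] at h5
    by_cases h6 : ∀ i < k, nx G.ta G.tb m.1 (s i) = s (i + 1)
    · have h7 : (fun v => θ v + F m v : G.Field) ∈ G.Lipschitz l ∩ G.Follows l k s :=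
        ⟨h4, h5.2 h6⟩
      rw [if_pos h6, Set.indicator_of_mem h7]
      simp
    · rw [if_neg h6, Set.indicator_of_notMem (fun h => h6 (h5.1 h.2))]
      simp
  · intro n hn
    rw [Function.mem_support] at hn
    have h4 : (fun v => θ v + n v : G.Field) ∈ G.Lipschitz l ∩ G.Follows l k s := by
      by_contra hcon
      exact hn (Set.indicator_of_notMem hcon _)
    have h5 := (Dom.valid_iff hl hl' hg).1 h4.1
    refine ⟨⟨G.nn n, h5⟩, ?_⟩
    funext v
    change G.nn n v.1 = n v
    simp [Dom.nn]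

end Run7.h729
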