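import Pool.Agent.Run7.h729.Lip.Surj
import Pool.Agent.Run7.h729.Lip.Perm6

namespace Run7.h729

open Classical

variable {L : Type*} [LinearOrder L] {D : Finset Tri}
variable {r : V → L} {Λ : Finset V} {N : V → ℤ} {ta tb : Tri} {ia ib : Fin 3} {n : V → ℤ}

/-- `-1` if the vertex opposite to the edge `i` is below both end points, `1` otherwise -/
noncomputable def csg (r : V → L) (t : Tri) (i : Fin 3) : ℤ :=
  if r (vert t (i + 2)) < r (vert t i) ∧ r (vert t (i + 2)) < r (vert t (i + 1)) then -1 else 1

/-- the sign of a step across the edge `i` of `t` -/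
noncomputable def sg (r : V → L) (t : Tri) (i : Fin 3) : ℤ :=
  (if t.2 then 1 else -1) * csg r t i * csg r (across t i) i

/-- the sign attached to the pair `(t, t')` -/
noncomputable def mm (r : V → L) (tb : Tri) (t t' : Tri) : ℤ :=
  if t = tb then 1 else ∏ i : Fin 3, if t' = across t i then sg r t i else 1

theorem mm_across {t : Tri} (h : t ≠ tb) (i : Fin 3) : mm r tb t (across t i) = sg r t i := by
  rw [mm, if_neg h, Finset.prod_eq_single i]
  · simp
  · intro j _ hj
    rw [if_neg]
    intro he
    exact hj (across_inj _ _ _ he).symm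
  · simp

theorem mm_self (t : Tri) : mm r tb t t = 1 := by
  unfold mm
  split_ifs
  · rfl
  · apply Finset.prod_eq_one
    intro i _
    rw [if_neg (across_ne t i).symm]

theorem mm_tb (t' : Tri) : mm r tb tb t' = 1 := by simp [mm]

theorem csg_sq (r : V → L) (t : Tri) (i : Fin 3) : csg r t i = 1 ∨ csg r t i = -1 := by
  unfold csg; split_ifs <;> simp

theorem sg_sq (r : V → L) (t : Tri) (i : Fin 3) : sg r t i = 1 ∨ sg r t i = -1 := by
  unfold sg
  rcases csg_sq r t i with h | h <;> rcases csg_sq r (across t i) i with h' | h' <;>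
    rw [h, h'] <;> split_ifs <;> simp

theorem mm_sq (r : V → L) (tb : Tri) (t t' : Tri) : mm r tb t t' = 1 ∨ mm r tb t t' = -1 := by
  unfold mm
  split_ifs
  · exact Or.inl rfl
  · rw [Fin.prod_univ_three]
    have h : ∀ i, (if t' = across t i then sg r t i else 1) = 1 ∨
        (if t' = across t i then sg r t i else 1) = -1 := by
      intro i
      split_ifs
      · exact sg_sq r t i
      · exact Or.inl rfl
    rcases h 0 with h0 | h0 <;> rcases h 1 with h1 | h1 <;> rcases h 2 with h2 | h2 <;>
      rw [h0, h1, h2] <;> simp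

/-- the signed weight of a permutation -/
noncomputable def S (r : V → L) (tb : Tri) (τ : Equiv.Perm {t // t ∈ D}) : ℤ :=
  ((Equiv.Perm.sign τ : ℤˣ) : ℤ) * ∏ t, mm r tb t.1 (τ t).1

theorem S_sq (τ : Equiv.Perm {t // t ∈ D}) : S r tb τ = 1 ∨ S r tb τ = -1 := by
  unfold S
  have h : ∀ s : Finset {t // t ∈ D}, (∏ t ∈ s, mm r tb t.1 (τ t).1) = 1 ∨
      (∏ t ∈ s, mm r tb t.1 (τ t).1) = -1 := by
    intro s
    induction s using Finset.induction_on with
    | empty => simp
    | insert a s ha ih =>
      rw [Finset.prod_insert ha]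
      rcases mm_sq r tb a.1 (τ a).1 with h1 | h1 <;> rcases ih with h2 | h2 <;> rw [h1, h2] <;> simp
  rcases h Finset.univ with h1 | h1 <;> rw [h1] <;>
    rcases Int.units_eq_one_or (Equiv.Perm.sign τ) with h2 | h2 <;> rw [h2] <;> simp

theorem vert_opp (t : Tri) (i : Fin 3) : vert (across t i) (i + 2) ≠ vert t (i + 2) := by
  rcases t with ⟨⟨x, y⟩, b⟩
  cases b <;> fin_cases i <;> simp [across, vert] <;> omega

section flip

variable (v : V) (hvΛ : v ∈ Λ)
  (hv : Valid r Λ N n) (hv' : Valid r Λ N (Function.update n v (n v + 1)))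
  (hr : Function.Injective r) (hD : Dob D Λ N ta tb ia ib)

/-- the pattern of the neighbours of `v` -/
noncomputable def bb (r : V → L) (v : V) (k : Fin 6) : Bool := decide (r v < r (nbr v k))

include hvΛ hD in
omit [LinearOrder L] in
theorem around_mem (k : Fin 6) : around v k ∈ D :=
  hD.mem _ (idx k) (by rw [vert_around]; exact hvΛ)

include hr in
theorem not_bb {k : Fin 6} (h : bb r v k = false) : r (nbr v k) < r v := by
  simp only [bb, decide_eq_false_iff_not, not_lt] at h
  exact lt_of_le_of_ne h (fun he => nbr_ne v k (hr he))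

include hvΛ hv hv' hr in
theorem nbr_val (k : Fin 6) : n (nbr v k) = n v + (if bb r v k then 0 else 1) := by
  have hne := nbr_ne v k
  have e0 := vert_around v k
  have e1 := vert_around1 v k
  have h1 := hv.edge' hr (t := around v k) (i := idx k) (Or.inl (by rw [e0]; exact hvΛ))
  have h2 := hv'.edge' hr (t := around v k) (i := idx k) (Or.inl (by rw [e0]; exact hvΛ))
  simp only [diff, e0, e1, Function.update_self, Function.update_of_ne hne] at h1 h2
  by_cases hb : r v < r (nbr v k)
  · have : bb r v k = true := by simp [bb, hb]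
    rw [this]
    simp only [if_true]
    have h3 : ¬ (r (nbr v k) < r v) := not_lt.2 hb.le
    rcases h1 with h1 | h1 | h1
    · omega
    · exact absurd h1.2 h3
    · rcases h2 with h2 | h2 | h2
      · omega
      · exact absurd h2.2 h3
      · omega
  · have : bb r v k = false := by simp [bb, hb]
    rw [this]
    simp only [Bool.false_eq_true, if_false]
    rcases h1 with h1 | h1 | h1
    · rcases h2 with h2 | h2 | h2
      · omega
      · omega
      · exact absurd h2.2 hb
    · omega
    · exact absurd h1.2 hb

include hvΛ hv hv' hr in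
theorem diffs (k : Fin 6) :
    diff n (around v k) (idx k) = (if bb r v k then 0 else 1) ∧
    diff n (around v k) (idx k + 1) = (if bb r v (k + 1) then 0 else 1) - (if bb r v k then 0 else 1) ∧
    diff n (around v k) (idx k + 2) = - (if bb r v (k + 1) then 0 else 1) := by
  have e0 := vert_around v k
  have e1 := vert_around1 v k
  have e2 := vert_around2 v k
  have e3 : idx k + 2 + 1 = idx k := by fin_cases k <;> rfl
  have e4 : idx k + 1 + 1 = idx k + 2 := by fin_cases k <;> rfl
  have h1 := nbr_val v hvΛ hv hv' hr k
  have h2 := nbr_val v hvΛ hv hv' hr (k + 1)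
  simp only [diff, e3, e4, e0, e1, e2, h1, h2]
  refine ⟨by ring, by ring, by ring⟩

include hvΛ hv hv' hr in
theorem diffs' (k : Fin 6) :
    diff (Function.update n v (n v + 1)) (around v k) (idx k) = (if bb r v k then -1 else 0) ∧
    diff (Function.update n v (n v + 1)) (around v k) (idx k + 1) =
      (if bb r v (k + 1) then 0 else 1) - (if bb r v k then 0 else 1) ∧
    diff (Function.update n v (n v + 1)) (around v k) (idx k + 2) =
      (if bb r v (k + 1) then 1 else 0) := by
  have e0 := vert_around v k
  have e1 := vert_around1 v k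
  have e2 := vert_around2 v k
  have e3 : idx k + 2 + 1 = idx k := by fin_cases k <;> rfl
  have e4 : idx k + 1 + 1 = idx k + 2 := by fin_cases k <;> rfl
  have h1 := nbr_val v hvΛ hv hv' hr k
  have h2 := nbr_val v hvΛ hv hv' hr (k + 1)
  simp only [diff, e3, e4, e0, e1, e2, Function.update_self, Function.update_of_ne (nbr_ne v k),
    Function.update_of_ne (nbr_ne v (k + 1)), h1, h2]
  refine ⟨?_, by ring, ?_⟩
  · split_ifs <;> ring
  · split_ifs <;> ring

omit [LinearOrder L] in
theorem idx_cases (i : Fin 3) (k : Fin 6) : i = idx k ∨ i = idx k + 1 ∨ i = idx k + 2 := by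
  fin_cases i <;> fin_cases k <;> simp [idx]

include hvΛ in
omit [LinearOrder L] in
theorem off_idx {k : Fin 6} {i : Fin 3} (h0 : vert (around v k) i ∉ Λ)
    (h1 : vert (around v k) (i + 1) ∉ Λ) : i = idx k + 1 := by
  have e0 := vert_around v k
  rcases idx_cases i k with rfl | rfl | rfl
  · rw [e0] at h0; exact absurd hvΛ h0
  · rfl
  · have e3 : idx k + 2 + 1 = idx k := by fin_cases k <;> rfl
    rw [e3, e0] at h1; exact absurd hvΛ h1

include hvΛ hv hv' hr hD in
/-- the values of the two permutations around `v` -/
theorem nx_around (k : Fin 6) :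
    nx ta tb n (around v k) =
      (if around v k = tb then ta else
      if bb r v k = false then around v (k + 5)
      else if bb r v (k + 1) = false then across (around v k) (idx k + 1)
      else around v k) := by
  obtain ⟨d0, d1, d2⟩ := diffs v hvΛ hv hv' hr k
  have hm := around_mem v hvΛ hD k
  by_cases htb : around v k = tb
  · rw [if_pos htb, htb, nx_tb]
  rw [if_neg htb]
  have hacr : across (around v k) (idx k) = around v (k + 5) := by
    have := across_around v (k + 5)
    rwa [show k + 5 + 1 = k by fin_cases k <;> rfl] at this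
  by_cases hb : bb r v k = false
  · rw [if_pos hb, nx_of hv hr hD hm htb (i := idx k) (by rw [d0]; simp [hb]), hacr]
  rw [if_neg hb]
  rw [Bool.not_eq_false] at hb
  by_cases hb1 : bb r v (k + 1) = false
  · rw [if_pos hb1, nx_of hv hr hD hm htb (i := idx k + 1) (by rw [d1]; simp [hb, hb1])]
  rw [if_neg hb1]
  rw [Bool.not_eq_false] at hb1
  apply nx_self htb
  intro i
  rcases idx_cases i k with rfl | rfl | rfl
  · rw [d0]; simp [hb]
  · rw [d1]; simp [hb, hb1]
  · rw [d2]; simp [hb1]

include hvΛ hv hv' hr hD in
theorem nx_around' (k : Fin 6) :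
    nx ta tb (Function.update n v (n v + 1)) (around v k) =
      (if around v k = tb then ta else
      if bb r v (k + 1) = true then around v (k + 1)
      else if bb r v k = true then across (around v k) (idx k + 1)
      else around v k) := by
  obtain ⟨d0, d1, d2⟩ := diffs' v hvΛ hv hv' hr k
  have hm := around_mem v hvΛ hD k
  by_cases htb : around v k = tb
  · rw [if_pos htb, htb, nx_tb]
  rw [if_neg htb]
  have hacr : across (around v k) (idx k + 2) = around v (k + 1) := across_around2 v k
  by_cases hb : bb r v (k + 1) = true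
  · rw [if_pos hb, nx_of hv' hr hD hm htb (i := idx k + 2) (by rw [d2]; simp [hb]), hacr]
  rw [if_neg hb]
  rw [Bool.not_eq_true] at hb
  by_cases hb1 : bb r v k = true
  · rw [if_pos hb1, nx_of hv' hr hD hm htb (i := idx k + 1) (by rw [d1]; simp [hb, hb1])]
  rw [if_neg hb1]
  rw [Bool.not_eq_true] at hb1
  apply nx_self htb
  intro i
  rcases idx_cases i k with rfl | rfl | rfl
  · rw [d0]; simp [hb1]
  · rw [d1]; simp [hb, hb1]
  · rw [d2]; simp [hb]

include hvΛ hv hv' hr hD in
/-- if `tb` is around `v` the pattern there is `HL` -/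
theorem tb_pat {k : Fin 6} (h : around v k = tb) : bb r v k = true ∧ bb r v (k + 1) = false := by
  have h1 : ib = idx k + 1 := by
    apply off_idx v hvΛ
    · rw [h]; exact hD.b_off.1
    · rw [h]; exact hD.b_off.2
  have h2 := diff_tb hv hD
  obtain ⟨d0, d1, d2⟩ := diffs v hvΛ hv hv' hr k
  rw [h1, ← h, d1] at h2
  cases h3 : bb r v k <;> cases h4 : bb r v (k + 1) <;> simp_all

include hvΛ hv hv' hr hD in
theorem ta_pat {k : Fin 6} (h : around v k = ta) : bb r v k = false ∧ bb r v (k + 1) = true := by
  have h1 : ia = idx k + 1 := by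
    apply off_idx v hvΛ
    · rw [h]; exact hD.a_off.1
    · rw [h]; exact hD.a_off.2
  have h2 := diff_ta hv hD
  obtain ⟨d0, d1, d2⟩ := diffs v hvΛ hv hv' hr k
  rw [h1, ← h, d1] at h2
  cases h3 : bb r v k <;> cases h4 : bb r v (k + 1) <;> simp_all

/-- the embedding of the six triangles -/
def emb (v : V) (hvΛ : v ∈ Λ) (hD : Dob D Λ N ta tb ia ib) : Fin 6 ↪ {t // t ∈ D} where
  toFun k := ⟨around v k, around_mem v hvΛ hD k⟩
  inj' := fun _ _ h => around_inj v (congrArg Subtype.val h)

omit [LinearOrder L] in
theorem perm6_fix {b : Fin 6 → Bool} {j : Fin 6} (h : b j = false ∧ b (j + 1) = true) :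
    perm6 b j = j := by
  change piF b j = j
  simp [piF, h.1, h.2]

include hv hv' hr hD in
/-- the two permutations differ by the cycle `perm6` -/
theorem sig_flip : sig hv' hr hD = (perm6 (bb r v)).viaFintypeEmbedding (emb v hvΛ hD) *
    sig hv hr hD := by
  ext1 t
  rw [Equiv.Perm.mul_apply]
  -- fixed columns
  have hfix : ∀ s : {t // t ∈ D}, (∀ j, s = emb v hvΛ hD j → bb r v j = false ∧
      bb r v (j + 1) = true) → (perm6 (bb r v)).viaFintypeEmbedding (emb v hvΛ hD) s = s := by
    intro s hs
    by_cases h : s ∈ Set.range (emb v hvΛ hD)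
    · obtain ⟨j, rfl⟩ := h
      rw [Equiv.Perm.viaFintypeEmbedding_apply_image, perm6_fix (hs j rfl)]
    · exact Equiv.Perm.viaFintypeEmbedding_apply_notMem_range _ _ h
  have hta : (perm6 (bb r v)).viaFintypeEmbedding (emb v hvΛ hD) ⟨ta, hD.ta_mem⟩ =
      ⟨ta, hD.ta_mem⟩ := by
    apply hfix
    intro j hj
    exact ta_pat v hvΛ hv hv' hr hD (congrArg Subtype.val hj).symm
  have hsig : ∀ s, (sig hv hr hD s).1 = nx ta tb n s.1 := fun s => rfl
  have hsig' : ∀ s, (sig hv' hr hD s).1 = nx ta tb (Function.update n v (n v + 1)) s.1 :=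
    fun s => rfl
  by_cases ht : t ∈ Set.range (emb v hvΛ hD)
  · obtain ⟨k, rfl⟩ := ht
    have hk : (emb v hvΛ hD k).1 = around v k := rfl
    have h1 := hsig (emb v hvΛ hD k)
    have h2 := hsig' (emb v hvΛ hD k)
    rw [hk] at h1 h2
    rw [nx_around v hvΛ hv hv' hr hD k] at h1
    rw [nx_around' v hvΛ hv hv' hr hD k] at h2
    by_cases htb : around v k = tb
    · rw [if_pos htb] at h1 h2
      have h3 : sig hv hr hD (emb v hvΛ hD k) = ⟨ta, hD.ta_mem⟩ := Subtype.ext h1
      have h4 : sig hv' hr hD (emb v hvΛ hD k) = ⟨ta, hD.ta_mem⟩ := Subtype.ext h2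
      rw [h3, h4, hta]
    rw [if_neg htb] at h1 h2
    cases hb : bb r v k
    · -- `L`
      rw [if_pos hb] at h1
      have h3 : sig hv hr hD (emb v hvΛ hD k) = emb v hvΛ hD (k + 5) := Subtype.ext h1
      rw [h3, Equiv.Perm.viaFintypeEmbedding_apply_image]
      have e1 : k + 5 + 1 = k := by fin_cases k <;> rfl
      have e2 : k + 5 + 2 = k + 1 := by fin_cases k <;> rfl
      have h5 : perm6 (bb r v) (k + 5) = if bb r v (k + 1) = true then k + 1 else k := by
        change piF (bb r v) (k + 5) = _
        unfold piF
        rw [e1, e2, hb]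
        cases hb1 : bb r v (k + 1) <;> simp
      rw [h5]
      apply Subtype.ext
      rw [h2]
      rw [hb]
      cases hb1 : bb r v (k + 1) <;> simp [emb]
    · -- `H`
      rw [if_neg (by simp [hb])] at h1
      rw [if_pos hb] at h2
      cases hb1 : bb r v (k + 1)
      · rw [if_pos hb1] at h1
        rw [if_neg (by simp [hb1])] at h2
        have h3 : sig hv' hr hD (emb v hvΛ hD k) = sig hv hr hD (emb v hvΛ hD k) :=
          Subtype.ext (by rw [h1, h2])
        rw [h3]
        symm
        apply hfix
        intro j hj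
        exfalso
        have h4 : across (around v k) (idx k + 1) = around v j := by
          rw [← h1, hj]; rfl
        have e0 := vert_around v j
        rw [← h4] at e0
        have e4 : idx k + 1 + 1 = idx k + 2 := by fin_cases k <;> rfl
        have e5 : idx k + 1 + 2 = idx k := by fin_cases k <;> rfl
        rcases idx_cases (idx j) k with h5 | h5 | h5
        · rw [h5] at e0
          have := vert_opp (around v k) (idx k + 1)
          rw [e5] at this
          rw [e0, vert_around] at this
          exact this rfl
        · rw [h5, vert_across, e4, vert_around2] at e0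
          exact nbr_ne v _ e0
        · rw [h5, ← e4, vert_across', vert_around1] at e0
          exact nbr_ne v _ e0
      · rw [if_neg (by simp [hb1])] at h1
        rw [if_pos hb1] at h2
        have h3 : sig hv hr hD (emb v hvΛ hD k) = emb v hvΛ hD k := Subtype.ext h1
        rw [h3, Equiv.Perm.viaFintypeEmbedding_apply_image]
        have h5 : perm6 (bb r v) k = k + 1 := by
          change piF (bb r v) k = _
          unfold piF
          simp [hb, hb1]
        rw [h5]
        exact Subtype.ext h2
  · have hnv : ∀ i, vert t.1 i ≠ v := by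
      intro i hi
      obtain ⟨k, hk, -⟩ := exists_around hi
      exact ht ⟨k, Subtype.ext hk.symm⟩
    have hd : ∀ i, diff (Function.update n v (n v + 1)) t.1 i = diff n t.1 i := by
      intro i
      simp only [diff, Function.update_of_ne (hnv _)]
    have hnx : nx ta tb (Function.update n v (n v + 1)) t.1 = nx ta tb n t.1 := by
      unfold nx
      simp only [hd]
    have h3 : sig hv' hr hD t = sig hv hr hD t := Subtype.ext hnx
    rw [h3]
    symm
    by_cases htb : t.1 = tb
    · have h4 : sig hv hr hD t = ⟨ta, hD.ta_mem⟩ := Subtype.ext (by rw [hsig, htb, nx_tb])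
      rw [h4, hta]
    apply hfix
    intro j hj
    by_cases h5 : ∃ i, diff n t.1 i = 1
    · obtain ⟨i, hi⟩ := h5
      have h6 : across t.1 i = around v j := by
        rw [← nx_of hv hr hD t.2 htb hi, ← hsig, hj]; rfl
      have h7 : diff n (around v j) i = -1 := by rw [← h6, diff_across, hi]
      have h8 : across (around v j) i = t.1 := by rw [← h6, across_across]
      obtain ⟨d0, d1, d2⟩ := diffs v hvΛ hv hv' hr j
      rcases idx_cases i j with rfl | rfl | rfl
      · exfalso
        have := across_around v (j + 5)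
        rw [show j + 5 + 1 = j by fin_cases j <;> rfl, h8] at this
        exact ht ⟨j + 5, Subtype.ext this.symm⟩
      · rw [d1] at h7
        cases h9 : bb r v j <;> cases h10 : bb r v (j + 1) <;> simp_all
      · exfalso
        have := across_around2 v j
        rw [h8] at this
        exact ht ⟨j + 1, Subtype.ext this.symm⟩
    · push Not at h5
      exfalso
      have h6 : sig hv hr hD t = t := Subtype.ext (nx_self htb h5)
      rw [h6] at hj
      exact ht ⟨j, hj.symm⟩

end flip

end Run7.h729
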