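import Pool.Agent.Run7.h729.Lip.Comb

namespace Run7.h729

open Classical

variable {L : Type*} [LinearOrder L] {D : Finset Tri}
variable {r : V → L} {Λ : Finset V} {N : V → ℤ} {ta tb : Tri} {ia ib : Fin 3} {n : V → ℤ}

theorem const_of {m : V → ℤ} (h1 : ∀ x y, m (x + 1, y) = m (x, y))
    (h2 : ∀ x y, m (x, y + 1) = m (x, y)) (p q : V) : m p = m q := by
  have a : ∀ x y, m (x, y) = m (0, y) := by
    intro x y
    induction x using Int.induction_on with
    | zero => rfl
    | succ i ih => rw [h1, ih]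
    | pred i ih =>
      rw [← ih, ← h1]
      congr 2
      ring
  have b : ∀ y, m (0, y) = m (0, 0) := by
    intro y
    induction y using Int.induction_on with
    | zero => rfl
    | succ i ih => rw [h2, ih]
    | pred i ih =>
      rw [← ih, ← h2]
      congr 2
      ring
  obtain ⟨x, y⟩ := p
  obtain ⟨x', y'⟩ := q
  rw [a x y, b y, a x' y', b y']

theorem diff_eq_of {n m : V → ℤ} (h : ∀ t i, diff n t i = diff m t i) (p : V) (hp : n p = m p) :
    n = m := by
  have h1 : ∀ x y, (fun v => n v - m v) (x + 1, y) = (fun v => n v - m v) (x, y) := by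
    intro x y
    have := h ((x, y), false) 0
    simp only [diff, vert] at this ⊢
    simp at this
    linarith
  have h2 : ∀ x y, (fun v => n v - m v) (x, y + 1) = (fun v => n v - m v) (x, y) := by
    intro x y
    have := h ((x, y), false) 2
    simp only [diff, vert] at this ⊢
    simp at this
    linarith
  funext q
  have := const_of (m := fun v => n v - m v) h1 h2 q p
  linarith

theorem Dob.notD_off (hD : Dob D Λ N ta tb ia ib) {t : Tri} (ht : t ∉ D) (i : Fin 3) :
    vert t i ∉ Λ := fun h => ht (hD.mem t i h)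

/-- the increments of `N` along the edges off `Λ` of a triangle of `D`: uniqueness of `±1` -/
theorem Dob.uniqN (hD : Dob D Λ N ta tb ia ib) {t : Tri} (ht : t ∈ D) {c : ℤ}
    (hc : c = 1 ∨ c = -1) {i j : Fin 3}
    (hi : ¬ (vert t i ∈ Λ ∨ vert t (i + 1) ∈ Λ) ∧ N (vert t (i + 1)) - N (vert t i) = c)
    (hj : ¬ (vert t j ∈ Λ ∨ vert t (j + 1) ∈ Λ) ∧ N (vert t (j + 1)) - N (vert t j) = c) :
    i = j := by
  by_contra hne
  -- all three vertices are off `Λ`
  have hall : ∀ k, vert t k ∉ Λ := by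
    intro k
    have h1 := hi.1
    have h2 := hj.1
    push Not at h1 h2
    rcases fin3_cases i with rfl | rfl | rfl <;> rcases fin3_cases j with rfl | rfl | rfl <;>
      rcases fin3_cases k with rfl | rfl | rfl <;> first | exact absurd rfl hne | simp_all
  exact hne (uniq_of (d := fun k => N (vert t (k + 1)) - N (vert t k)) (by simp)
    (fun k => hD.chord t ht k (hall k) (hall _)) hc hi.2 hj.2)

section surj

variable (τ : Equiv.Perm {t // t ∈ D})

/-- `τ` steps from `t` across the edge `i` -/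
def Out (tb : Tri) (t : Tri) (i : Fin 3) : Prop :=
  t ≠ tb ∧ ∃ h : t ∈ D, (τ ⟨t, h⟩).1 = across t i

noncomputable def DD (Λ : Finset V) (N : V → ℤ) (tb : Tri) (t : Tri) (i : Fin 3) : ℤ :=
  if vert t i ∈ Λ ∨ vert t (i + 1) ∈ Λ then
    (if Out τ tb t i then 1 else 0) - (if Out τ tb (across t i) i then 1 else 0)
  else N (vert t (i + 1)) - N (vert t i)

theorem DD_across (t : Tri) (i : Fin 3) : DD τ Λ N tb (across t i) i = - DD τ Λ N tb t i := by
  unfold DD
  rw [vert_across, vert_across', across_across]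
  by_cases h : vert t i ∈ Λ ∨ vert t (i + 1) ∈ Λ
  · rw [if_pos h, if_pos h.symm]; ring
  · rw [if_neg h, if_neg (fun h' => h h'.symm)]; ring

/-- out-crossing of the edge `i` -/
def PO (Λ : Finset V) (N : V → ℤ) (tb : Tri) (t : Tri) (i : Fin 3) : Prop :=
  ((vert t i ∈ Λ ∨ vert t (i + 1) ∈ Λ) ∧ Out τ tb t i) ∨
  (¬ (vert t i ∈ Λ ∨ vert t (i + 1) ∈ Λ) ∧ N (vert t (i + 1)) - N (vert t i) = 1)

def PI (Λ : Finset V) (N : V → ℤ) (tb : Tri) (t : Tri) (i : Fin 3) : Prop :=
  ((vert t i ∈ Λ ∨ vert t (i + 1) ∈ Λ) ∧ Out τ tb (across t i) i) ∨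
  (¬ (vert t i ∈ Λ ∨ vert t (i + 1) ∈ Λ) ∧ N (vert t (i + 1)) - N (vert t i) = -1)

variable (hτ : ∀ t : {t // t ∈ D}, Allowed r Λ N ta tb t.1 (τ t).1)
  (hD : Dob D Λ N ta tb ia ib)

include hD in
theorem DD_eq {t : Tri} (ht : t ∈ D) (i : Fin 3) :
    DD τ Λ N tb t i = (if PO τ Λ N tb t i then 1 else 0) - (if PI τ Λ N tb t i then 1 else 0) := by
  unfold DD PO PI
  by_cases h : vert t i ∈ Λ ∨ vert t (i + 1) ∈ Λ
  · simp [h]
  · simp only [h, if_false, false_and, false_or, not_false_eq_true, true_and]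
    push Not at h
    rcases hD.chord t ht i h.1 h.2 with h3 | h3 | h3 <;> simp [h3]

include hτ hD

theorem tb_map : (τ ⟨tb, hD.tb_mem⟩).1 = ta := by
  rcases hτ ⟨tb, hD.tb_mem⟩ with h | h
  · exact h.2
  · exact absurd rfl h.1

theorem forced_map {t : {t // t ∈ D}} (htb : t.1 ≠ tb) {i : Fin 3} (h : Forced Λ N t.1 i) :
    (τ t).1 = across t.1 i := by
  rcases hτ t with h1 | ⟨h1, ⟨j, hj, h2⟩ | ⟨h2, -⟩⟩
  · exact absurd h1.1 htb
  · rw [h2, hD.uniqN t.2 (Or.inl rfl) hj h]
  · exact absurd h (h2 i)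

/-- the chord case: a forced in-edge is used -/
theorem forced_in {t : {t // t ∈ D}} (hta : t.1 ≠ ta) {i : Fin 3}
    (h : ¬ (vert t.1 i ∈ Λ ∨ vert t.1 (i + 1) ∈ Λ) ∧
      N (vert t.1 (i + 1)) - N (vert t.1 i) = -1) :
    ∃ hm : across t.1 i ∈ D, across t.1 i ≠ tb ∧ τ ⟨across t.1 i, hm⟩ = t := by
  have hm : across t.1 i ∈ D := by
    by_contra hcon
    rcases hD.bdry t.1 t.2 i hcon with h2 | ⟨h2, -⟩ | ⟨h2, rfl⟩
    · have := h.2; omega
    · exact hta h2
    · have := hD.db
      rw [h2] at h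
      have := h.2
      omega
  have hF : Forced Λ N (across t.1 i) i := by
    refine ⟨?_, ?_⟩
    · rw [vert_across, vert_across']; have := h.1; tauto
    · rw [vert_across, vert_across']; have := h.2; omega
  have hne : across t.1 i ≠ tb := by
    intro he
    have hm' := hm
    rw [he] at hF hm'
    have hb := hD.b_off
    have := hD.uniqN hm' (Or.inl rfl) hF ⟨by tauto, hD.db⟩
    subst this
    have := hD.bout
    rw [← he, across_across] at this
    exact this t.2
  refine ⟨hm, hne, ?_⟩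
  apply Subtype.ext
  rw [forced_map (t := ⟨across t.1 i, hm⟩) τ hτ hD hne hF]
  exact across_across _ _

theorem PO_none {t : {t // t ∈ D}} (h : τ t = t) (i : Fin 3) : ¬ PO τ Λ N tb t.1 i := by
  have htb : t.1 ≠ tb := by
    intro he
    have h1 : t = ⟨tb, hD.tb_mem⟩ := Subtype.ext he
    subst h1
    have h2 := tb_map τ hτ hD
    rw [h] at h2
    exact hD.ne h2.symm
  rintro (⟨h1, h2, h3, h4⟩ | ⟨h1, h2⟩)
  · rw [h] at h4
    exact across_ne t.1 i h4.symm
  · have h3 := forced_map τ hτ hD htb ⟨h1, h2⟩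
    rw [h] at h3
    exact across_ne _ _ h3.symm

theorem PO_one {t : {t // t ∈ D}} (h : τ t ≠ t) :
    ∃ i, ∀ j, PO τ Λ N tb t.1 j ↔ j = i := by
  by_cases htb : t.1 = tb
  · have hb := hD.b_off
    have hib : ¬ (vert t.1 ib ∈ Λ ∨ vert t.1 (ib + 1) ∈ Λ) ∧
        N (vert t.1 (ib + 1)) - N (vert t.1 ib) = 1 := by
      rw [htb]; exact ⟨by tauto, hD.db⟩
    refine ⟨ib, fun j => ⟨?_, ?_⟩⟩
    · rintro (⟨h1, h2, -⟩ | h1)
      · exact absurd htb h2
      · exact hD.uniqN t.2 (Or.inl rfl) h1 hib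
    · rintro rfl
      right
      exact hib
  · rcases hτ t with h1 | ⟨h1, ⟨i, hi, h2⟩ | ⟨hF, h2 | ⟨i, hi, h3, h4⟩⟩⟩
    · exact absurd h1.1 htb
    · refine ⟨i, fun j => ⟨?_, ?_⟩⟩
      · rintro (⟨h5, h6, h7, h8⟩ | h5)
        · rw [h2] at h8
          exact (across_inj _ _ _ h8).symm
        · exact hD.uniqN t.2 (Or.inl rfl) h5 hi
      · rintro rfl
        exact Or.inr hi
    · exact absurd (Subtype.ext h2) h
    · refine ⟨i, fun j => ⟨?_, ?_⟩⟩
      · rintro (⟨h5, h6, h7, h8⟩ | h5)
        · rw [hi] at h8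
          exact (across_inj _ _ _ h8).symm
        · exact absurd h5 (hF j)
      · rintro rfl
        left
        exact ⟨h3, htb, t.2, hi⟩

theorem PI_none {t : {t // t ∈ D}} (h : τ t = t) (i : Fin 3) : ¬ PI τ Λ N tb t.1 i := by
  have hta : t.1 ≠ ta := by
    intro he
    have h2 := tb_map τ hτ hD
    have h1 : τ ⟨tb, hD.tb_mem⟩ = t := Subtype.ext (by rw [h2, he])
    rw [← h] at h1
    have h3 := τ.injective h1
    have h4 : tb = t.1 := congrArg Subtype.val h3
    exact hD.ne (by rw [h4, he])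
  rintro (⟨h1, h2, h3, h4⟩ | h1)
  · rw [across_across] at h4
    have h5 : τ ⟨across t.1 i, h3⟩ = τ t := by
      rw [h]; exact Subtype.ext h4
    have h6 := congrArg Subtype.val (τ.injective h5)
    exact across_ne t.1 i h6
  · obtain ⟨hm, -, h3⟩ := forced_in τ hτ hD hta h1
    have h5 : τ ⟨across t.1 i, hm⟩ = τ t := by rw [h, h3]
    have h6 := congrArg Subtype.val (τ.injective h5)
    exact across_ne t.1 i h6

theorem PI_one {t : {t // t ∈ D}} (h : τ t ≠ t) :
    ∃ i, ∀ j, PI τ Λ N tb t.1 j ↔ j = i := by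
  by_cases hta : t.1 = ta
  · have ha := hD.a_off
    have hia : ¬ (vert t.1 ia ∈ Λ ∨ vert t.1 (ia + 1) ∈ Λ) ∧
        N (vert t.1 (ia + 1)) - N (vert t.1 ia) = -1 := by
      rw [hta]; exact ⟨by tauto, hD.da⟩
    refine ⟨ia, fun j => ⟨?_, ?_⟩⟩
    · rintro (⟨h1, h2, h3, h4⟩ | h1)
      · rw [across_across] at h4
        have h5 : τ ⟨across t.1 j, h3⟩ = τ ⟨tb, hD.tb_mem⟩ := by
          apply Subtype.ext
          rw [h4, tb_map τ hτ hD, hta]
        exact absurd (congrArg Subtype.val (τ.injective h5)) h2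
      · exact hD.uniqN t.2 (Or.inr rfl) h1 hia
    · rintro rfl
      exact Or.inr hia
  · set s := τ.symm t with hs
    have hst : τ s = t := by rw [hs]; simp
    have hne : s ≠ t := by
      intro he
      rw [he] at hst
      exact h hst
    -- uniqueness
    have huniq : ∀ i j, across t.1 i = s.1 → PI τ Λ N tb t.1 j → j = i := by
      rintro i j hsi (⟨h5, h6, h7, h8⟩ | h5)
      · rw [across_across] at h8
        have h9 : τ ⟨across t.1 j, h7⟩ = τ s := by
          rw [hst]; exact Subtype.ext h8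
        have h10 := congrArg Subtype.val (τ.injective h9)
        simp only at h10
        rw [← hsi] at h10
        exact across_inj _ _ _ h10
      · obtain ⟨hm, -, h3⟩ := forced_in τ hτ hD hta h5
        have h10 := congrArg Subtype.val (τ.injective (h3.trans hst.symm))
        simp only at h10
        rw [← hsi] at h10
        exact across_inj _ _ _ h10
    rcases hτ s with h1 | ⟨h1, ⟨i, hi, h2⟩ | ⟨hF, h2 | ⟨i, hi, h3, h4⟩⟩⟩
    · rw [hst] at h1
      exact absurd h1.2 hta
    · rw [hst] at h2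
      have hsi : across t.1 i = s.1 := by rw [h2, across_across]
      refine ⟨i, fun j => ⟨huniq i j hsi, ?_⟩⟩
      rintro rfl
      right
      rw [h2, vert_across, vert_across']
      obtain ⟨h5, h6⟩ := hi
      exact ⟨by tauto, by omega⟩
    · rw [hst] at h2
      exact absurd (Subtype.ext h2).symm hne
    · rw [hst] at hi
      have hsi : across t.1 i = s.1 := by rw [hi, across_across]
      refine ⟨i, fun j => ⟨huniq i j hsi, ?_⟩⟩
      rintro rfl
      left
      refine ⟨?_, ?_, ?_, ?_⟩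
      · rw [hi, vert_across, vert_across']; exact h3.symm
      · rw [hsi]; exact h1
      · rw [hsi]; exact s.2
      · rw [across_across]
        have : (⟨across t.1 j, by rw [hsi]; exact s.2⟩ : {t // t ∈ D}) = s :=
          Subtype.ext hsi
        rw [this, hst]

omit hτ hD in
theorem sum_ind {P : Fin 3 → Prop} {i : Fin 3} (h : ∀ j, P j ↔ j = i) :
    ((if P 0 then 1 else 0) + (if P 1 then 1 else 0) + (if P 2 then 1 else 0) : ℤ) = 1 := by
  rcases fin3_cases i with rfl | rfl | rfl <;> simp [h]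

theorem DD_sum (t : Tri) : DD τ Λ N tb t 0 + DD τ Λ N tb t 1 + DD τ Λ N tb t 2 = 0 := by
  by_cases ht : t ∈ D
  · rw [DD_eq τ hD ht, DD_eq τ hD ht, DD_eq τ hD ht]
    by_cases h : τ ⟨t, ht⟩ = ⟨t, ht⟩
    · have h1 := PO_none τ hτ hD h
      have h2 := PI_none τ hτ hD h
      simp [h1, h2]
    · obtain ⟨i, hi⟩ := PO_one τ hτ hD h
      obtain ⟨j, hj⟩ := PI_one τ hτ hD h
      have h1 := sum_ind hi
      have h2 := sum_ind hj
      linarith
  · have h : ∀ i, vert t i ∉ Λ := hD.notD_off ht
    simp [DD, h]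

theorem exists_valid (hr : Function.Injective r) :
    ∃ (n : V → ℤ) (hv : Valid r Λ N n), sig hv hr hD = τ := by
  obtain ⟨m, hm⟩ := potential (fun p => DD τ Λ N tb (p, false) 0)
    (fun p => - DD τ Λ N tb (p, false) 2) (by
      intro x y
      have h1 := DD_sum τ hτ hD ((x, y), false)
      have h2 := DD_sum τ hτ hD ((x, y), true)
      have h3 := DD_across (Λ := Λ) (N := N) (tb := tb) τ ((x, y), true) 0
      have h4 := DD_across (Λ := Λ) (N := N) (tb := tb) τ ((x, y), true) 1
      have h5 := DD_across (Λ := Λ) (N := N) (tb := tb) τ ((x, y), true) 2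
      simp only [across] at h3 h4 h5
      simp at h3 h4 h5
      linarith)
  have hup : ∀ x y i, diff m ((x, y), false) i = DD τ Λ N tb ((x, y), false) i := by
    intro x y i
    have h1 := DD_sum τ hτ hD ((x, y), false)
    obtain ⟨h2, h3⟩ := hm x y
    rcases fin3_cases i with rfl | rfl | rfl
    · simp [diff, vert, h2]
    · simp [diff, vert, h2, h3]
      linarith
    · simp [diff, vert, h3]
  have hall : ∀ t i, diff m t i = DD τ Λ N tb t i := by
    rintro ⟨⟨x, y⟩, b⟩ i
    cases b
    · exact hup x y i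
    · have h1 := diff_across m (across ((x, y), true) i) i
      have h2 := DD_across (Λ := Λ) (N := N) (tb := tb) τ (across ((x, y), true) i) i
      rw [across_across] at h1 h2
      rw [h1, h2]
      congr 1
      rcases fin3_cases i with rfl | rfl | rfl
      · exact hup _ _ _
      · exact hup _ _ _
      · exact hup _ _ _
  -- normalise
  have hoff : ∀ u w, Relation.ReflTransGen (fun p q => Adj p q ∧ p ∉ Λ ∧ q ∉ Λ) u w →
      m w - N w = m u - N u := by
    intro u w h
    induction h with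
    | refl => rfl
    | tail _ h ih =>
      rename_i p q _
      rw [← ih]
      obtain ⟨h1, h2, h3⟩ := h
      obtain ⟨t, i, h4, h5⟩ := exists_edge h1
      have h6 := hall t i
      unfold diff DD at h6
      rw [h4, h5, if_neg (by tauto)] at h6
      linarith
  set c := m (vert ta ia) - N (vert ta ia) with hc
  set n : V → ℤ := fun v => m v - c with hn
  have hdn : ∀ t i, diff n t i = DD τ Λ N tb t i := by
    intro t i
    rw [← hall]
    simp only [diff, hn]
    ring
  have hnot : ∀ t i, (vert t i ∈ Λ ∨ vert t (i + 1) ∈ Λ) → r (vert t (i + 1)) < r (vert t i) →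
      ¬ Out τ tb (across t i) i := by
    intro t i h1 h2 ⟨h3, h4, h5⟩
    rcases hτ ⟨across t i, h4⟩ with h6 | ⟨h6, ⟨j, hj, h7⟩ | ⟨-, h7 | ⟨j, hj, h8, h9⟩⟩⟩
    · exact absurd h6.1 h3
    · rw [h5] at h7
      simp only at h7
      have := across_inj _ _ _ h7
      subst this
      have := hj.1
      simp only at this
      rw [vert_across, vert_across'] at this
      tauto
    · rw [h5] at h7
      simp only at h7
      exact across_ne _ _ h7
    · rw [h5] at hj
      simp only at hj
      have := across_inj _ _ _ hj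
      subst this
      simp only at h9
      rw [vert_across, vert_across'] at h9
      exact absurd h9 (not_lt.2 h2.le)
  have hv : Valid r Λ N n := by
    refine ⟨?_, ?_⟩
    · intro v hv
      have := hoff _ _ (hD.conn (vert ta ia) v hD.a_off.1 hv)
      simp only [hn, hc]
      linarith
    · intro t i h1 h2
      have h3 := hdn t i
      unfold DD at h3
      rw [if_pos h1, if_neg (hnot t i h1 h2)] at h3
      unfold diff at h3
      split_ifs at h3
      · right; linarith
      · left; linarith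
  refine ⟨n, hv, ?_⟩
  ext1 t
  apply Subtype.ext
  change nx ta tb n t.1 = (τ t).1
  by_cases htb : t.1 = tb
  · have : t = ⟨tb, hD.tb_mem⟩ := Subtype.ext htb
    rw [this, tb_map τ hτ hD, nx_tb]
  · rcases hτ t with h1 | ⟨h1, ⟨i, hi, h2⟩ | ⟨hF, h2 | ⟨i, hi, h3, h4⟩⟩⟩
    · exact absurd h1.1 htb
    · rw [h2]
      apply nx_of hv hr hD t.2 htb
      rw [hv.diff_off hi.1, hi.2]
    · have h5 : τ t = t := Subtype.ext h2
      rw [h5]
      apply nx_self htb
      intro i hi
      rw [hdn, DD_eq τ hD t.2, if_neg (PO_none τ hτ hD h5 i)] at hi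
      split_ifs at hi <;> omega
    · rw [hi]
      apply nx_of hv hr hD t.2 htb
      rw [hdn]
      unfold DD
      rw [if_pos h3, if_neg (hnot _ _ h3 h4), if_pos ⟨htb, t.2, hi⟩]
      rfl

end surj

theorem diff_one_iff (hv : Valid r Λ N n) (hr : Function.Injective r)
    (hD : Dob D Λ N ta tb ia ib)
    {t : Tri} {i : Fin 3} (h : vert t i ∈ Λ ∨ vert t (i + 1) ∈ Λ) :
    diff n t i = 1 ↔ (t ≠ tb ∧ nx ta tb n t = across t i) := by
  have ht : t ∈ D := hD.mem' h
  constructor
  · intro hi
    have htb : t ≠ tb := by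
      rintro rfl
      have := uniq hv hr hD ht (Or.inl rfl) hi (diff_tb hv hD)
      subst this
      have := hD.b_off
      tauto
    exact ⟨htb, nx_of hv hr hD ht htb hi⟩
  · rintro ⟨htb, h1⟩
    by_contra hne
    by_cases h2 : ∃ j, diff n t j = 1
    · obtain ⟨j, hj⟩ := h2
      rw [nx_of hv hr hD ht htb hj] at h1
      have := across_inj _ _ _ h1
      subst this
      exact hne hj
    · push Not at h2
      rw [nx_self htb h2] at h1
      exact across_ne _ _ h1.symm

theorem sig_inj {m : V → ℤ} (hv : Valid r Λ N n) (hm : Valid r Λ N m)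
    (hr : Function.Injective r) (hD : Dob D Λ N ta tb ia ib)
    (h : sig hv hr hD = sig hm hr hD) : n = m := by
  have hnx : ∀ t ∈ D, nx ta tb n t = nx ta tb m t := by
    intro t ht
    have := congrArg (fun σ => (σ ⟨t, ht⟩).1) h
    exact this
  have h1 : ∀ t i, (vert t i ∈ Λ ∨ vert t (i + 1) ∈ Λ) → (diff n t i = 1 ↔ diff m t i = 1) := by
    intro t i ht
    rw [diff_one_iff hv hr hD ht, diff_one_iff hm hr hD ht, hnx t (hD.mem' ht)]
  apply diff_eq_of (p := vert ta ia)
  · intro t i
    by_cases ht : vert t i ∈ Λ ∨ vert t (i + 1) ∈ Λ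
    · have h2 := h1 t i ht
      have h3 := h1 (across t i) i (by rw [vert_across, vert_across']; exact ht.symm)
      rw [diff_across, diff_across] at h3
      rcases hv.edge' hr ht with h4 | h4 | h4 <;> rcases hm.edge' hr ht with h5 | h5 | h5 <;> omega
    · push Not at ht
      simp only [diff, hv.off _ ht.1, hv.off _ ht.2, hm.off _ ht.1, hm.off _ ht.2]
  · rw [hv.off _ hD.a_off.1, hm.off _ hD.a_off.1]

end Run7.h729
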